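import Pool.Agent.LibSchK.K5

/-!
# Further facts on `Y`, `F`, `N`: the chord bound, the value at `q = 1`, slopes

`ν = N / q = (1 - b ^ 2) Y / F` increases from `(1 - b ^ 2) / 3` to `1 - b` and is convex in `q`.
-/

open Set Filter Topology

namespace SchV

open SchK

variable {b : ℝ} (hb0 : 0 < b) (hb1 : b < 1)

theorem chord_aux {b : ℝ} (hb0 : 0 < b) (hb1 : b < 1) {x : ℝ} (hx : 0 < x) :
    Real.sinh (b * x) * (15 - (18 - 3 * b - 6 * b ^ 2) * Real.tanh x ^ 2 +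
      (1 - b ^ 2) * (3 - b) * Real.tanh x ^ 4) ≤
    Real.cosh (b * x) * (b * Real.tanh x * (15 - (13 - 3 * b - b ^ 2) * Real.tanh x ^ 2)) := by
  have hb2 : b ^ 2 < 1 := by nlinarith
  refine tanh_le (L := x + 1)
    (fun x => b * Real.tanh x * (15 - (13 - 3 * b - b ^ 2) * Real.tanh x ^ 2))
    (fun x => 15 - (18 - 3 * b - 6 * b ^ 2) * Real.tanh x ^ 2 +
      (1 - b ^ 2) * (3 - b) * Real.tanh x ^ 4)
    (fun x => (b * (15 - 3 * (13 - 3 * b - b ^ 2) * Real.tanh x ^ 2)) * (1 - Real.tanh x ^ 2))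
    (fun x => (-2 * (18 - 3 * b - 6 * b ^ 2) * Real.tanh x +
      4 * ((1 - b ^ 2) * (3 - b)) * Real.tanh x ^ 3) * (1 - Real.tanh x ^ 2))
    (fun y => hasDerivAt_poly (fun t => b * t * (15 - (13 - 3 * b - b ^ 2) * t ^ 2))
      (fun t => b * (15 - 3 * (13 - 3 * b - b ^ 2) * t ^ 2)) (fun t => ?_) y)
    (fun y => hasDerivAt_poly
      (fun t => 15 - (18 - 3 * b - 6 * b ^ 2) * t ^ 2 + (1 - b ^ 2) * (3 - b) * t ^ 4)
      (fun t => -2 * (18 - 3 * b - 6 * b ^ 2) * t + 4 * ((1 - b ^ 2) * (3 - b)) * t ^ 3)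
      (fun t => ?_) y)
    (by simp) (fun y hy => ?_) (fun y hy => ?_) (fun y hy => ?_) x ⟨hx, by linarith⟩
  · have h1 := ((hasDerivAt_id t).const_mul b).mul
      (((hasDerivAt_pow 2 t).const_mul (13 - 3 * b - b ^ 2)).const_sub 15)
    refine (h1.congr_deriv ?_)
    simp
    ring
  · have h1 := (((hasDerivAt_pow 2 t).const_mul (18 - 3 * b - 6 * b ^ 2)).const_sub 15).add
      ((hasDerivAt_pow 4 t).const_mul ((1 - b ^ 2) * (3 - b)))
    refine (h1.congr_deriv ?_)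
    simp
    ring
  · have h1 := tanh_pos hy.1
    have h3 := one_sub_sq_pos y
    -- Q = (1 - q) (15 - (3 - b) (1 - b ^ 2) q ...) : use the value at q = 1
    have h4 : 0 ≤ (1 - b ^ 2) * (3 - b) * Real.tanh y ^ 4 := by
      have : 0 ≤ 1 - b ^ 2 := by linarith
      have : 0 ≤ 3 - b := by linarith
      positivity
    have e : 15 - (18 - 3 * b - 6 * b ^ 2) * Real.tanh y ^ 2 +
      (1 - b ^ 2) * (3 - b) * Real.tanh y ^ 4 =
      (2 * b + 3 * b ^ 2 + b ^ 3) * Real.tanh y ^ 4 + (1 - Real.tanh y ^ 2) *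
        (15 + (- 3 + 3 * b + 6 * b ^ 2) * Real.tanh y ^ 2) := by ring
    simp only [e]
    have h5 : 0 < 15 + (- 3 + 3 * b + 6 * b ^ 2) * Real.tanh y ^ 2 := by
      nlinarith [sq_nonneg (Real.tanh y), sq_nonneg b]
    positivity
  · have h1 := tanh_pos hy.1
    have h3 := one_sub_sq_pos y
    have h4 : 0 ≤ b * (b * Real.tanh y * (15 - (13 - 3 * b - b ^ 2) * Real.tanh y ^ 2)) := by
      have : 0 ≤ 15 - (13 - 3 * b - b ^ 2) * Real.tanh y ^ 2 := by
        nlinarith [sq_nonneg (Real.tanh y), sq_nonneg b]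
      positivity
    have h5 : (-2 * (18 - 3 * b - 6 * b ^ 2) * Real.tanh y +
      4 * ((1 - b ^ 2) * (3 - b)) * Real.tanh y ^ 3) * (1 - Real.tanh y ^ 2) ≤ 0 := by
      have h6 : -2 * (18 - 3 * b - 6 * b ^ 2) * Real.tanh y +
        4 * ((1 - b ^ 2) * (3 - b)) * Real.tanh y ^ 3 =
        Real.tanh y * (-2 * (18 - 3 * b - 6 * b ^ 2) +
          4 * ((1 - b ^ 2) * (3 - b)) * Real.tanh y ^ 2) := by ring
      rw [h6]
      have h7 : -2 * (18 - 3 * b - 6 * b ^ 2) +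
          4 * ((1 - b ^ 2) * (3 - b)) * Real.tanh y ^ 2 ≤ 0 := by
        have h8 : 0 ≤ (1 - b ^ 2) * (3 - b) := mul_nonneg (by linarith) (by linarith)
        have h9 : (1 - b ^ 2) * (3 - b) ≤ 3 := by nlinarith [mul_nonneg hb0.le (sq_nonneg b)]
        nlinarith [mul_nonneg h8 h3.le]
      exact mul_nonpos_of_nonpos_of_nonneg (mul_nonpos_of_nonneg_of_nonpos h1.le h7) h3.le
    linarith
  · have h1 := tanh_pos hy.1
    have h3 := one_sub_sq_pos y
    have e : ((b * (15 - 3 * (13 - 3 * b - b ^ 2) * Real.tanh y ^ 2)) * (1 - Real.tanh y ^ 2) *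
          (15 - (18 - 3 * b - 6 * b ^ 2) * Real.tanh y ^ 2 +
            (1 - b ^ 2) * (3 - b) * Real.tanh y ^ 4) -
        b * Real.tanh y * (15 - (13 - 3 * b - b ^ 2) * Real.tanh y ^ 2) *
          ((-2 * (18 - 3 * b - 6 * b ^ 2) * Real.tanh y +
            4 * ((1 - b ^ 2) * (3 - b)) * Real.tanh y ^ 3) * (1 - Real.tanh y ^ 2))) -
        b * ((15 - (18 - 3 * b - 6 * b ^ 2) * Real.tanh y ^ 2 +
            (1 - b ^ 2) * (3 - b) * Real.tanh y ^ 4) ^ 2 -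
        (b * Real.tanh y * (15 - (13 - 3 * b - b ^ 2) * Real.tanh y ^ 2)) ^ 2) =
        b * (1 - b ^ 2) * (4 - b ^ 2) * (3 - b) * (4 - b) * Real.tanh y ^ 6 *
          (1 - Real.tanh y ^ 2) := by
      ring
    have h2 : 0 ≤ b * (1 - b ^ 2) * (4 - b ^ 2) * (3 - b) * (4 - b) * Real.tanh y ^ 6 *
          (1 - Real.tanh y ^ 2) := by
      have h3' : 0 ≤ 1 - b ^ 2 := by linarith
      have h4 : 0 ≤ 4 - b ^ 2 := by linarith
      have h5 : 0 ≤ 3 - b := by linarith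
      have h6 : 0 ≤ 4 - b := by linarith
      positivity
    linarith

include hb0 hb1 in
/-- the chord bound -/
theorem Y_chord {x : ℝ} (hx : 0 < x) : 5 - (3 - b) * Real.tanh x ^ 2 ≤ Yf b x := by
  have ht := tanh_pos hx
  have hb2 : b ^ 2 < 1 := by nlinarith
  have hs := sinh_pos' hb0 hx
  have h := chord_aux hb0 hb1 hx
  have h1 : 15 - (18 - 3 * b - 6 * b ^ 2) * Real.tanh x ^ 2 +
      (1 - b ^ 2) * (3 - b) * Real.tanh x ^ 4 ≤
      b * Real.tanh x * (Real.cosh (b * x) / Real.sinh (b * x)) *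
      (15 - (13 - 3 * b - b ^ 2) * Real.tanh x ^ 2) := by
    have e : b * Real.tanh x * (Real.cosh (b * x) / Real.sinh (b * x)) *
        (15 - (13 - 3 * b - b ^ 2) * Real.tanh x ^ 2) =
        Real.cosh (b * x) * (b * Real.tanh x * (15 - (13 - 3 * b - b ^ 2) * Real.tanh x ^ 2)) /
          Real.sinh (b * x) := by ring
    rw [e, le_div_iff₀ hs]
    linarith
  have h2 : Nf b x * (15 - (13 - 3 * b - b ^ 2) * Real.tanh x ^ 2) ≤
      (1 - b ^ 2) * Real.tanh x ^ 2 * (5 - (3 - b) * Real.tanh x ^ 2) := by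
    rw [Nf]
    nlinarith
  rw [Yf, le_div_iff₀ (den_pos hb0 hb1 hx)]
  nlinarith

include hb0 hb1 in
theorem Y_ge_two {x : ℝ} (hx : 0 < x) : 2 + b ≤ Yf b x := by
  have h1 := Y_chord hb0 hb1 hx
  have h2 := one_sub_sq_pos x
  nlinarith

include hb0 hb1 in
theorem F_ge {x : ℝ} (hx : 0 < x) : (1 + b) * (2 + b) ≤ Ff b x := by
  have h1 := Y_chord hb0 hb1 hx
  have h2 := one_sub_sq_pos x
  rw [Ff]
  have h3 : 0 ≤ (13 - 3 * b - b ^ 2) * (1 - Real.tanh x ^ 2) :=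
    mul_nonneg (by nlinarith) h2.le
  nlinarith

include hb0 hb1 in
theorem N_F {x : ℝ} (hx : 0 < x) : Nf b x * Ff b x = (1 - b ^ 2) * Real.tanh x ^ 2 * Yf b x := by
  have hd := (den_pos hb0 hb1 hx).ne'
  have h1 : Yf b x * (3 * Nf b x - (1 - b ^ 2) * Real.tanh x ^ 2) =
      (4 - b ^ 2) * Real.tanh x ^ 2 * Nf b x := by
    rw [Yf, div_mul_cancel₀ _ hd]
  rw [Ff]
  linarith

/-- `ν = N / q` -/
noncomputable def nu (b x : ℝ) : ℝ := Nf b x / Real.tanh x ^ 2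

include hb0 hb1 in
theorem nu_F {x : ℝ} (hx : 0 < x) : nu b x * Ff b x = (1 - b ^ 2) * Yf b x := by
  have ht := (tanh_pos hx).ne'
  have h := N_F hb0 hb1 hx
  rw [nu, div_mul_eq_mul_div, h]
  field_simp

theorem nu_mul {x : ℝ} (hx : 0 < x) : nu b x * Real.tanh x ^ 2 = Nf b x := by
  have ht := (tanh_pos hx).ne'
  rw [nu, div_mul_cancel₀ _ (pow_ne_zero 2 ht)]

include hb0 hb1 in
theorem nu_eq {x : ℝ} (hx : 0 < x) : nu b x = (1 - b ^ 2) * Yf b x / Ff b x := by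
  rw [eq_div_iff (F_pos hb0 hb1 hx).ne', nu_F hb0 hb1 hx]

include hb0 hb1 in
theorem nu_le {x : ℝ} (hx : 0 < x) : nu b x ≤ 1 - b := by
  rw [nu_eq hb0 hb1 hx, div_le_iff₀ (F_pos hb0 hb1 hx), Ff]
  have h1 := Y_ge_two hb0 hb1 hx
  have h2 := one_sub_sq_pos x
  have h3 : (1 - b) * (2 - b) * ((2 + b) * Real.tanh x ^ 2) ≤ (1 - b) * (2 - b) * Yf b x :=
    mul_le_mul_of_nonneg_left (by nlinarith) (mul_nonneg (by linarith) (by linarith))
  nlinarith

include hb0 hb1 in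
theorem nu_ge {x : ℝ} (hx : 0 < x) : (1 - b ^ 2) / 3 ≤ nu b x := by
  rw [nu_eq hb0 hb1 hx, le_div_iff₀ (F_pos hb0 hb1 hx), Ff]
  have hb2 : b ^ 2 < 1 := by nlinarith
  have h2 : 0 ≤ (1 - b ^ 2) * ((4 - b ^ 2) * Real.tanh x ^ 2) :=
    mul_nonneg (by linarith) (mul_nonneg (by linarith) (sq_nonneg _))
  nlinarith

include hb0 hb1 in
theorem nu_pos {x : ℝ} (hx : 0 < x) : 0 < nu b x := by
  have hb2 : b ^ 2 < 1 := by nlinarith
  have := nu_ge hb0 hb1 hx
  linarith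

include hb0 hb1 in
theorem nu_sub {x y : ℝ} (hx : 0 < x) (hy : 0 < y) : (nu b x - nu b y) * (Ff b x * Ff b y) =
    (1 - b ^ 2) * (4 - b ^ 2) *
      (Yf b y * Real.tanh x ^ 2 - Yf b x * Real.tanh y ^ 2) := by
  have h1 := nu_F hb0 hb1 hx
  have h2 := nu_F hb0 hb1 hy
  have : (nu b x - nu b y) * (Ff b x * Ff b y) = nu b x * Ff b x * Ff b y -
    nu b y * Ff b y * Ff b x := by ring
  rw [this, h1, h2, Ff, Ff]
  ring

theorem tanh_lt {x y : ℝ} (h : x < y) : Real.tanh x < Real.tanh y := by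
  rw [Real.tanh_eq_sinh_div_cosh, Real.tanh_eq_sinh_div_cosh,
    div_lt_div_iff₀ (Real.cosh_pos x) (Real.cosh_pos y)]
  have h1 : 0 < Real.sinh (y - x) := Real.sinh_pos_iff.2 (by linarith)
  rw [Real.sinh_sub] at h1
  linarith

include hb0 hb1 in
theorem Y_anti {x y : ℝ} (hx : 0 < x) (h : x ≤ y) : Yf b y ≤ Yf b x := by
  have hy := hx.trans_le h
  have h1 := D_tangent hb0 hb1 hy hx
  have h2 := D1_nonneg hb0 hb1 hx
  rw [Df, Df] at h1
  have h3 : Real.tanh x ^ 2 ≤ Real.tanh y ^ 2 := by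
    rcases h.eq_or_lt with h | h
    · rw [h]
    · have := tanh_lt h
      have := tanh_pos hx
      nlinarith
  nlinarith [mul_nonneg h2 (sub_nonneg.2 h3)]

include hb0 hb1 in
theorem nu_mono {x y : ℝ} (hx : 0 < x) (h : x ≤ y) : nu b x ≤ nu b y := by
  have hy := hx.trans_le h
  have h1 := nu_sub hb0 hb1 hy hx
  have h2 := Y_anti hb0 hb1 hx h
  have hb2 : b ^ 2 < 1 := by nlinarith
  have h3 : Real.tanh x ^ 2 ≤ Real.tanh y ^ 2 := by
    rcases h.eq_or_lt with h | h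
    · rw [h]
    · have := tanh_lt h
      have := tanh_pos hx
      nlinarith
  have h4 : Yf b y * Real.tanh x ^ 2 ≤ Yf b x * Real.tanh y ^ 2 :=
    mul_le_mul h2 h3 (sq_nonneg _) (Y_pos hb0 hb1 hx).le
  have h5 : 0 ≤ (nu b y - nu b x) * (Ff b y * Ff b x) := by
    rw [h1]
    exact mul_nonneg (mul_nonneg (by linarith) (by linarith)) (sub_nonneg.2 h4)
  have h6 : 0 < Ff b y * Ff b x := mul_pos (F_pos hb0 hb1 hy) (F_pos hb0 hb1 hx)
  have := nonneg_of_mul_nonneg_left h5 h6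
  linarith

include hb0 hb1 in
/-- the tangent of `D` at `y`, evaluated at `q = 1` -/
theorem D_end {y : ℝ} (hy : 0 < y) : Df b y + D1 b y * (1 - Real.tanh y ^ 2) ≤ 3 - b := by
  by_contra hc
  push Not at hc
  have h1 := D1_nonneg hb0 hb1 hy
  set g := Df b y + D1 b y * (1 - Real.tanh y ^ 2) - (3 - b) with hg
  have hg0 : 0 < g := by linarith
  -- choose `x` with `D1 (1 - q_x) < g`
  obtain ⟨x, hx, hq⟩ : ∃ x : ℝ, 0 < x ∧ D1 b y * (1 - Real.tanh x ^ 2) < g := by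
    set s : ℝ := 1 - g / (2 * (D1 b y + 1 + g)) with hs
    have hs0 : 0 < s := by
      rw [hs, sub_pos, div_lt_one (by positivity)]
      linarith
    have hs1 : s < 1 := by
      rw [hs]
      have : 0 < g / (2 * (D1 b y + 1 + g)) := by positivity
      linarith
    refine ⟨Real.artanh s, ?_, ?_⟩
    · exact Real.artanh_pos ⟨hs0, hs1⟩
    · rw [Real.tanh_artanh ⟨by linarith, hs1⟩]
      have e1 : 1 - s ^ 2 ≤ 2 * (1 - s) := by nlinarith
      have e2 : 1 - s = g / (2 * (D1 b y + 1 + g)) := by rw [hs]; ring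
      have e3 : D1 b y * (1 - s ^ 2) ≤ D1 b y * (2 * (1 - s)) :=
        mul_le_mul_of_nonneg_left e1 h1
      refine e3.trans_lt ?_
      rw [e2]
      have e4 : D1 b y * (2 * (g / (2 * (D1 b y + 1 + g)))) = D1 b y * g / (D1 b y + 1 + g) := by
        field_simp
      rw [e4, div_lt_iff₀ (by positivity)]
      nlinarith
  have h2 := D_tangent hb0 hb1 hx hy
  have h3 := Y_ge_two hb0 hb1 hx
  have h2' : Df b x = 5 - Yf b x := rfl
  have h4 : Df b y + D1 b y * (Real.tanh x ^ 2 - Real.tanh y ^ 2) ≤ 3 - b := by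
    linarith
  have h5 : D1 b y * (Real.tanh x ^ 2 - Real.tanh y ^ 2) =
    D1 b y * (1 - Real.tanh y ^ 2) - D1 b y * (1 - Real.tanh x ^ 2) := by ring
  linarith

include hb0 hb1 in
/-- three-point convexity of `D` with the end point `q = 1` -/
theorem D_slope {x y : ℝ} (hx : 0 < x) (hy : 0 < y) (h : Real.tanh y ^ 2 < Real.tanh x ^ 2) :
    (Df b x - Df b y) * (1 - Real.tanh y ^ 2) ≤
      (3 - b - Df b y) * (Real.tanh x ^ 2 - Real.tanh y ^ 2) := by
  have h1 := D_tangent hb0 hb1 hy hx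
  have h2 := D_end hb0 hb1 hx
  have h3 := one_sub_sq_pos x
  -- D_x - D_y ≤ D1_x (q_x - q_y); 3 - b ≥ D_x + D1_x (1 - q_x)
  have h4 : Df b x - Df b y ≤ D1 b x * (Real.tanh x ^ 2 - Real.tanh y ^ 2) := by linarith
  have h5 := mul_le_mul_of_nonneg_right h4 h3.le
  nlinarith

include hb0 hb1 in
theorem D_slope' {x y : ℝ} (hx : 0 < x) (hy : 0 < y) (h : Real.tanh x ^ 2 < Real.tanh y ^ 2) :
    (3 - b - Df b y) * (Real.tanh x ^ 2 - Real.tanh y ^ 2) ≤
      (Df b x - Df b y) * (1 - Real.tanh y ^ 2) := by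
  have h1 := D_tangent hb0 hb1 hx hy
  have h2 := D_end hb0 hb1 hy
  have h3 := one_sub_sq_pos y
  have h4 : D1 b y * (Real.tanh x ^ 2 - Real.tanh y ^ 2) ≤ Df b x - Df b y := by linarith
  have h5 := mul_le_mul_of_nonneg_right h4 h3.le
  nlinarith

end SchV
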