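import Pool.Agent.LibSchV.V1

/-!
# The function `sg y = sinh (b y) / (b sinh y)` and its addition formulas
-/

open Set Filter Topology

namespace SchV

open SchK

/-- `sinh (b y) / (b sinh y)`, with its value `1` at `0` -/
noncomputable def sg (b y : ℝ) : ℝ := if y = 0 then 1 else Real.sinh (b * y) / (b * Real.sinh y)

theorem sg_zero (b : ℝ) : sg b 0 = 1 := by simp [sg]

theorem sg_neg (b y : ℝ) : sg b (-y) = sg b y := by
  unfold sg
  by_cases h : y = 0
  · simp [h]
  · rw [if_neg (neg_ne_zero.2 h), if_neg h, mul_neg, Real.sinh_neg, Real.sinh_neg, mul_neg, neg_div_neg_eq]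

theorem sg_eq {b y : ℝ} (h : y ≠ 0) : sg b y = Real.sinh (b * y) / (b * Real.sinh y) := by
  rw [sg, if_neg h]

theorem tanh_pos_of {x : ℝ} (hx : 0 < x) : 0 < Real.tanh x := SchK.tanh_pos hx

section

variable {b : ℝ} (hb0 : 0 < b) (hb1 : b < 1)

include hb0 in
theorem sg_mul_sinh (y : ℝ) : sg b y * Real.sinh y = Real.sinh (b * y) / b := by
  by_cases h : y = 0
  · simp [h]
  · have hs : Real.sinh y ≠ 0 := by
      rwa [ne_eq, Real.sinh_eq_zero]
    rw [sg_eq h]
    field_simp

include hb0 in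
theorem sg_pos (y : ℝ) : 0 < sg b y := by
  have key : ∀ z, 0 < z → 0 < sg b z := fun z hz => by
    rw [sg_eq hz.ne']
    exact div_pos (Real.sinh_pos_iff.2 (mul_pos hb0 hz)) (mul_pos hb0 (Real.sinh_pos_iff.2 hz))
  rcases lt_trichotomy y 0 with h | h | h
  · rw [← sg_neg]; exact key _ (by linarith)
  · rw [h, sg_zero]; exact one_pos
  · exact key _ h

include hb0 hb1 in
theorem sinh_mul_le {y : ℝ} (hy : 0 ≤ y) : Real.sinh (b * y) ≤ b * Real.sinh y := by
  have h : ConvexOn ℝ (Ici 0) Real.sinh := by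
    apply convexOn_of_deriv2_nonneg (convex_Ici 0) Real.continuous_sinh.continuousOn
      Real.differentiable_sinh.differentiableOn
    · rw [Real.deriv_sinh]
      exact Real.differentiable_cosh.differentiableOn
    · intro x hx
      rw [interior_Ici] at hx
      simp only [Function.iterate_succ, Function.iterate_zero, Function.comp_apply, id_eq,
        Real.deriv_sinh, Real.deriv_cosh]
      exact (Real.sinh_pos_iff.2 hx).le
  have h1 := h.2 (mem_Ici.2 le_rfl) (mem_Ici.2 hy)
    (show 0 ≤ 1 - b by linarith) hb0.le (by ring)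
  simpa using h1

include hb0 hb1 in
theorem sg_le_one (y : ℝ) : sg b y ≤ 1 := by
  have key : ∀ z, 0 < z → sg b z ≤ 1 := fun z hz => by
    rw [sg_eq hz.ne', div_le_one (mul_pos hb0 (Real.sinh_pos_iff.2 hz))]
    exact sinh_mul_le hb0 hb1 hz.le
  rcases lt_trichotomy y 0 with h | h | h
  · rw [← sg_neg]; exact key _ (by linarith)
  · rw [h, sg_zero]
  · exact key _ h

include hb0 in
theorem continuousAt_sg_zero : ContinuousAt (sg b) 0 := by
  have h1 : Tendsto (slope (fun y => Real.sinh (b * y)) 0) (𝓝[≠] 0) (𝓝 b) := by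
    have := hasDerivAt_iff_tendsto_slope.1 (hasDerivAt_sb b 0)
    simpa using this
  have h2 : Tendsto (slope Real.sinh 0) (𝓝[≠] 0) (𝓝 1) := by
    have := hasDerivAt_iff_tendsto_slope.1 (Real.hasDerivAt_sinh 0)
    simpa using this
  have h3 : Tendsto (fun y => slope (fun y => Real.sinh (b * y)) 0 y / (b * slope Real.sinh 0 y))
      (𝓝[≠] 0) (𝓝 1) := by
    have := h1.div (h2.const_mul b) (by simpa using hb0.ne')
    rw [mul_one, div_self hb0.ne'] at this
    exact this
  have h4 : (fun y => slope (fun y => Real.sinh (b * y)) 0 y / (b * slope Real.sinh 0 y)) =ᶠ[𝓝[≠] 0]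
      sg b := by
    filter_upwards [self_mem_nhdsWithin] with y hy
    have hy' : y ≠ 0 := hy
    have hs : Real.sinh y ≠ 0 := by
      rwa [ne_eq, Real.sinh_eq_zero]
    rw [sg_eq hy', slope_def_field, slope_def_field]
    simp only [mul_zero, Real.sinh_zero, sub_zero]
    field_simp
  rw [continuousAt_iff_punctured_nhds, sg_zero]
  exact h3.congr' h4

include hb0 in
theorem continuous_sg : Continuous (sg b) := by
  rw [continuous_iff_continuousAt]
  intro y
  by_cases h : y = 0
  · rw [h]; exact continuousAt_sg_zero hb0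
  · have hs : Real.sinh y ≠ 0 := by
      rwa [ne_eq, Real.sinh_eq_zero]
    have h1 : (fun y => Real.sinh (b * y) / (b * Real.sinh y)) =ᶠ[𝓝 y] sg b := by
      filter_upwards [isOpen_ne.mem_nhds h] with z hz
      rw [sg_eq hz]
    refine ContinuousAt.congr ?_ h1
    exact ((hasDerivAt_sb b y).continuousAt).div
      (Real.continuous_sinh.continuousAt.const_mul b |>.congr (by simp))
      (mul_ne_zero hb0.ne' hs)

include hb0 in
theorem sg_mul_tanh (a : ℝ) : sg b a * Real.tanh a = Real.sinh (b * a) / (b * Real.cosh a) := by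
  have hc := (Real.cosh_pos a).ne'
  rw [Real.tanh_eq_sinh_div_cosh, ← mul_div_assoc, sg_mul_sinh hb0, div_div]

include hb0 in
theorem sg_mul_one_sub {y : ℝ} (hy : 0 < y) :
    sg b y * (1 - Nf b y) = Real.cosh (b * y) / Real.cosh y := by
  have hc := (Real.cosh_pos y).ne'
  have hs := (Real.sinh_pos_iff.2 hy).ne'
  have hs' := (sinh_pos' hb0 hy).ne'
  rw [sg_eq hy.ne', Nf, Real.tanh_eq_sinh_div_cosh]
  field_simp
  ring

theorem tanh_sub_mul (a y : ℝ) : Real.tanh a - Real.tanh y =
    Real.sinh (a - y) / (Real.cosh a * Real.cosh y) := by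
  have hc := (Real.cosh_pos y).ne'
  have hc' := (Real.cosh_pos a).ne'
  rw [Real.tanh_eq_sinh_div_cosh, Real.tanh_eq_sinh_div_cosh, Real.sinh_sub]
  field_simp

theorem tanh_add_mul (a y : ℝ) : Real.tanh a + Real.tanh y =
    Real.sinh (a + y) / (Real.cosh a * Real.cosh y) := by
  have hc := (Real.cosh_pos y).ne'
  have hc' := (Real.cosh_pos a).ne'
  rw [Real.tanh_eq_sinh_div_cosh, Real.tanh_eq_sinh_div_cosh, Real.sinh_add]
  field_simp

include hb0 in
/-- addition formula -/
theorem sg_add {a y : ℝ} (ha : 0 < a) (hy : 0 < y) : sg b (a + y) * (Real.tanh a + Real.tanh y) =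
    sg b a * sg b y * (Real.tanh a * (1 - Nf b y) + Real.tanh y * (1 - Nf b a)) := by
  have hc := (Real.cosh_pos y).ne'
  have hc' := (Real.cosh_pos a).ne'
  have e : sg b a * sg b y * (Real.tanh a * (1 - Nf b y) + Real.tanh y * (1 - Nf b a)) =
    (sg b a * Real.tanh a) * (sg b y * (1 - Nf b y)) +
    (sg b y * Real.tanh y) * (sg b a * (1 - Nf b a)) := by ring
  rw [e, sg_mul_tanh hb0, sg_mul_tanh hb0, sg_mul_one_sub hb0 ha, sg_mul_one_sub hb0 hy,
    tanh_add_mul, ← mul_div_assoc, sg_mul_sinh hb0, mul_add, Real.sinh_add]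
  field_simp

include hb0 in
theorem sg_sub {a y : ℝ} (ha : 0 < a) (hy : 0 < y) : sg b (a - y) * (Real.tanh a - Real.tanh y) =
    sg b a * sg b y * (Real.tanh a * (1 - Nf b y) - Real.tanh y * (1 - Nf b a)) := by
  have hc := (Real.cosh_pos y).ne'
  have hc' := (Real.cosh_pos a).ne'
  have e : sg b a * sg b y * (Real.tanh a * (1 - Nf b y) - Real.tanh y * (1 - Nf b a)) =
    (sg b a * Real.tanh a) * (sg b y * (1 - Nf b y)) -
    (sg b y * Real.tanh y) * (sg b a * (1 - Nf b a)) := by ring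
  rw [e, sg_mul_tanh hb0, sg_mul_tanh hb0, sg_mul_one_sub hb0 ha, sg_mul_one_sub hb0 hy,
    tanh_sub_mul, ← mul_div_assoc, sg_mul_sinh hb0, mul_sub, Real.sinh_sub]
  field_simp

include hb0 in
/-- addition formula in terms of `ν` -/
theorem sg_add' {a y : ℝ} (ha : 0 < a) (hy : 0 < y) : sg b (a + y) * (Real.tanh a + Real.tanh y) =
    sg b a * sg b y * (Real.tanh a + Real.tanh y -
      Real.tanh a * Real.tanh y * (nu b a * Real.tanh a + nu b y * Real.tanh y)) := by
  rw [sg_add hb0 ha hy, ← nu_mul ha, ← nu_mul hy]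
  ring

include hb0 in
theorem sg_sub' {a y : ℝ} (ha : 0 < a) (hy : 0 < y) : sg b (a - y) * (Real.tanh a - Real.tanh y) =
    sg b a * sg b y * (Real.tanh a - Real.tanh y +
      Real.tanh a * Real.tanh y * (nu b a * Real.tanh a - nu b y * Real.tanh y)) := by
  rw [sg_sub hb0 ha hy, ← nu_mul ha, ← nu_mul hy]
  ring

include hb0 in
theorem exp_mul {y : ℝ} (hy : 0 < y) : Real.exp ((1 - b) * y) * (1 - Real.tanh y) =
    sg b y * (1 - nu b y * Real.tanh y ^ 2 - b * Real.tanh y) := by
  have hc := (Real.cosh_pos y).ne'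
  rw [nu_mul hy]
  have e : sg b y * (1 - Nf b y - b * Real.tanh y) =
    sg b y * (1 - Nf b y) - b * (sg b y * Real.tanh y) := by ring
  rw [e, sg_mul_one_sub hb0 hy, sg_mul_tanh hb0, Real.tanh_eq_sinh_div_cosh]
  have h1 : 1 - Real.sinh y / Real.cosh y = Real.exp (-y) / Real.cosh y := by
    rw [← Real.cosh_sub_sinh]
    field_simp
  have h2 : Real.cosh (b * y) / Real.cosh y - b * (Real.sinh (b * y) / (b * Real.cosh y)) =
    Real.exp (-(b * y)) / Real.cosh y := by
    rw [← Real.cosh_sub_sinh]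
    field_simp
  rw [h1, h2, ← mul_div_assoc, ← Real.exp_add]
  congr 2
  ring

end

end SchV
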