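import Pool.Agent.LibSchV.V2

/-!
# Slopes of `ν`, bounds for `sg (a - y)` and `sg (a + y)`
-/

open Set Filter Topology

namespace SchV

open SchK

theorem tanh_sq_lt {x y : ℝ} (hx : 0 < x) (h : x < y) : Real.tanh x ^ 2 < Real.tanh y ^ 2 := by
  have h1 := tanh_lt h
  have h2 := tanh_pos_of hx
  nlinarith

section

variable {b : ℝ} (hb0 : 0 < b) (hb1 : b < 1)

include hb0 hb1 in
theorem one_sub_nu {y : ℝ} (hy : 0 < y) : (1 - b - nu b y) * Ff b y =
    (1 - b) * (2 - b) * (Yf b y - (2 + b) * Real.tanh y ^ 2) := by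
  have h := nu_F hb0 hb1 hy
  have : (1 - b - nu b y) * Ff b y = (1 - b) * Ff b y - nu b y * Ff b y := by ring
  rw [this, h, Ff]
  ring

include hb0 hb1 in
theorem nu_slope_q {a y : ℝ} (hy : 0 < y) (h : y < a) :
    (nu b a - nu b y) * (1 - Real.tanh y ^ 2) ≤
      (1 - b - nu b y) * (Real.tanh a ^ 2 - Real.tanh y ^ 2) := by
  have ha := hy.trans h
  have hq := tanh_sq_lt hy h
  have h1 := D_slope hb0 hb1 ha hy hq
  have hFa := F_ge hb0 hb1 ha
  have hFy := F_pos hb0 hb1 hy
  have hFa0 := F_pos hb0 hb1 ha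
  have hYy := Y_ge_two hb0 hb1 hy
  have hqy := one_sub_sq_pos y
  have e1 := nu_sub hb0 hb1 ha hy
  have e2 := one_sub_nu hb0 hb1 hy
  have hFF : 0 < Ff b a * Ff b y := mul_pos hFa0 hFy
  refine le_of_mul_le_mul_right ?_ hFF
  have e3 : (nu b a - nu b y) * (1 - Real.tanh y ^ 2) * (Ff b a * Ff b y) =
    (1 - b ^ 2) * (4 - b ^ 2) *
      (Yf b y * Real.tanh a ^ 2 - Yf b a * Real.tanh y ^ 2) * (1 - Real.tanh y ^ 2) := by
    rw [← e1]; ring
  have e4 : (1 - b - nu b y) * (Real.tanh a ^ 2 - Real.tanh y ^ 2) * (Ff b a * Ff b y) =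
    (1 - b) * (2 - b) * (Yf b y - (2 + b) * Real.tanh y ^ 2) *
      (Real.tanh a ^ 2 - Real.tanh y ^ 2) * Ff b a := by
    rw [← e2]; ring
  rw [e3, e4]
  rw [Df, Df] at h1
  generalize hA : Real.tanh a ^ 2 = qa at *
  generalize hB : Real.tanh y ^ 2 = qy at *
  generalize Yf b a = Ya at *
  generalize Yf b y = Yy at *
  have hqy0 : 0 ≤ qy := by rw [← hB]; positivity
  have h2 : (Yy * qa - Ya * qy) * (1 - qy) ≤ (Yy - (2 + b) * qy) * (qa - qy) := by
    nlinarith [mul_le_mul_of_nonneg_left h1 hqy0]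
  have h3 : 0 ≤ (Yy - (2 + b) * qy) * (qa - qy) := mul_nonneg (by nlinarith) (by linarith)
  have h4 : (Yy - (2 + b) * qy) * (qa - qy) * ((1 + b) * (2 + b)) ≤
    (Yy - (2 + b) * qy) * (qa - qy) * Ff b a := mul_le_mul_of_nonneg_left hFa h3
  have h5 : 0 ≤ (1 - b) * (2 - b) := mul_nonneg (by linarith) (by linarith)
  have h6 : 0 ≤ (1 + b) * (2 + b) := by positivity
  calc (1 - b ^ 2) * (4 - b ^ 2) * (Yy * qa - Ya * qy) * (1 - qy)
      = (1 - b) * (2 - b) * (((Yy * qa - Ya * qy) * (1 - qy)) * ((1 + b) * (2 + b))) := by ring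
    _ ≤ (1 - b) * (2 - b) * ((Yy - (2 + b) * qy) * (qa - qy) * Ff b a) := by
        refine mul_le_mul_of_nonneg_left (le_trans ?_ h4) h5
        exact mul_le_mul_of_nonneg_right h2 h6
    _ = _ := by ring

include hb0 hb1 in
theorem nu_slope_q' {a y : ℝ} (ha : 0 < a) (h : a < y) :
    (nu b y - nu b a) * (1 - Real.tanh y ^ 2) ≤
      (1 - b - nu b y) * (Real.tanh y ^ 2 - Real.tanh a ^ 2) := by
  have hy := ha.trans h
  have hq := tanh_sq_lt ha h
  have h1 := D_slope' hb0 hb1 ha hy hq
  have hFa := F_ge hb0 hb1 ha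
  have hFy := F_pos hb0 hb1 hy
  have hFa0 := F_pos hb0 hb1 ha
  have hYy := Y_ge_two hb0 hb1 hy
  have hqy := one_sub_sq_pos y
  have e1 := nu_sub hb0 hb1 ha hy
  have e2 := one_sub_nu hb0 hb1 hy
  have hFF : 0 < Ff b a * Ff b y := mul_pos hFa0 hFy
  refine le_of_mul_le_mul_right ?_ hFF
  have e3 : (nu b y - nu b a) * (1 - Real.tanh y ^ 2) * (Ff b a * Ff b y) =
    (1 - b ^ 2) * (4 - b ^ 2) *
      (Yf b a * Real.tanh y ^ 2 - Yf b y * Real.tanh a ^ 2) * (1 - Real.tanh y ^ 2) := by
    have : (nu b y - nu b a) * (1 - Real.tanh y ^ 2) * (Ff b a * Ff b y) =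
      -((nu b a - nu b y) * (Ff b a * Ff b y)) * (1 - Real.tanh y ^ 2) := by ring
    rw [this, e1]; ring
  have e4 : (1 - b - nu b y) * (Real.tanh y ^ 2 - Real.tanh a ^ 2) * (Ff b a * Ff b y) =
    (1 - b) * (2 - b) * (Yf b y - (2 + b) * Real.tanh y ^ 2) *
      (Real.tanh y ^ 2 - Real.tanh a ^ 2) * Ff b a := by
    rw [← e2]; ring
  rw [e3, e4]
  rw [Df, Df] at h1
  generalize hA : Real.tanh a ^ 2 = qa at *
  generalize hB : Real.tanh y ^ 2 = qy at *
  generalize Yf b a = Ya at *
  generalize Yf b y = Yy at *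
  have hqy0 : 0 ≤ qy := by rw [← hB]; positivity
  have h2 : (Ya * qy - Yy * qa) * (1 - qy) ≤ (Yy - (2 + b) * qy) * (qy - qa) := by
    nlinarith [mul_le_mul_of_nonneg_left h1 hqy0]
  have h3 : 0 ≤ (Yy - (2 + b) * qy) * (qy - qa) := mul_nonneg (by nlinarith) (by linarith)
  have h4 : (Yy - (2 + b) * qy) * (qy - qa) * ((1 + b) * (2 + b)) ≤
    (Yy - (2 + b) * qy) * (qy - qa) * Ff b a := mul_le_mul_of_nonneg_left hFa h3
  have h5 : 0 ≤ (1 - b) * (2 - b) := mul_nonneg (by linarith) (by linarith)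
  have h6 : 0 ≤ (1 + b) * (2 + b) := by positivity
  calc (1 - b ^ 2) * (4 - b ^ 2) * (Ya * qy - Yy * qa) * (1 - qy)
      = (1 - b) * (2 - b) * (((Ya * qy - Yy * qa) * (1 - qy)) * ((1 + b) * (2 + b))) := by ring
    _ ≤ (1 - b) * (2 - b) * ((Yy - (2 + b) * qy) * (qy - qa) * Ff b a) := by
        refine mul_le_mul_of_nonneg_left (le_trans ?_ h4) h5
        exact mul_le_mul_of_nonneg_right h2 h6
    _ = _ := by ring

include hb0 hb1 in
theorem nu_slope {a y : ℝ} (hy : 0 < y) (h : y < a) :
    (nu b a - nu b y) * (1 - Real.tanh y) ≤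
      (1 - b - nu b y) * (Real.tanh a - Real.tanh y) := by
  have h1 := nu_slope_q hb0 hb1 hy h
  have h2 := nu_le hb0 hb1 hy
  have h3 := tanh_lt h
  have h4 := tanh_lt_one' a
  have h5 := tanh_pos_of hy
  have h6 : (1 - b - nu b y) * (Real.tanh a - Real.tanh y) * (Real.tanh a + Real.tanh y) ≤
    (1 - b - nu b y) * (Real.tanh a - Real.tanh y) * (1 + Real.tanh y) :=
    mul_le_mul_of_nonneg_left (by linarith) (mul_nonneg (by linarith) (by linarith))
  refine le_of_mul_le_mul_right ?_ (show 0 < 1 + Real.tanh y by linarith)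
  nlinarith

include hb0 hb1 in
theorem nu_slope' {a y : ℝ} (ha : 0 < a) (h : a < y) :
    (nu b y - nu b a) * (1 - Real.tanh y) ≤
      (1 - b - nu b y) * (Real.tanh y - Real.tanh a) := by
  have h1 := nu_slope_q' hb0 hb1 ha h
  have h2 := nu_le hb0 hb1 (ha.trans h)
  have h3 := tanh_lt h
  have h4 := tanh_lt_one' y
  have h5 := tanh_pos_of ha
  have h6 : (1 - b - nu b y) * (Real.tanh y - Real.tanh a) * (Real.tanh y + Real.tanh a) ≤
    (1 - b - nu b y) * (Real.tanh y - Real.tanh a) * (1 + Real.tanh y) :=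
    mul_le_mul_of_nonneg_left (by linarith [tanh_lt_one' a]) (mul_nonneg (by linarith) (by linarith))
  refine le_of_mul_le_mul_right ?_ (show 0 < 1 + Real.tanh y by linarith)
  nlinarith

/-- a closed inequality between continuous functions extends to a point from its punctured
neighbourhood -/
theorem le_of_punctured {f g : ℝ → ℝ} {a : ℝ} (hf : ContinuousAt f a) (hg : ContinuousAt g a)
    (h : ∀ᶠ y in 𝓝[≠] a, f y ≤ g y) : f a ≤ g a :=
  le_of_tendsto_of_tendsto (hf.tendsto.mono_left nhdsWithin_le_nhds)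
    (hg.tendsto.mono_left nhdsWithin_le_nhds) h

theorem continuous_tanh : Continuous Real.tanh := by
  rw [continuous_iff_continuousAt]
  exact fun x => (SchK.hasDerivAt_tanh x).continuousAt

include hb0 hb1 in
theorem sub_le_aux {a y : ℝ} (ha : 0 < a) (hy : 0 < y) (hne : y ≠ a) :
    sg b (a - y) ≤ sg b a * (sg b y + Real.tanh a * (Real.exp ((1 - b) * y) - sg b y -
      (1 - b - nu b a) * (sg b y * Real.tanh y))) := by
  have h1 := sg_sub' hb0 ha hy
  have h2 := exp_mul hb0 hy
  have hsa := sg_pos hb0 a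
  have hsy := sg_pos hb0 y
  have hta := tanh_pos_of ha
  have hty := tanh_pos_of hy
  have hty1 := tanh_lt_one' y
  have hna := nu_le hb0 hb1 ha
  -- multiply by `(t_a - t_y) (1 - t_y)`
  have key : (sg b a * (sg b y + Real.tanh a * (Real.exp ((1 - b) * y) - sg b y -
      (1 - b - nu b a) * (sg b y * Real.tanh y))) -
      sg b (a - y)) * (Real.tanh a - Real.tanh y) * (1 - Real.tanh y) =
      sg b a * sg b y * (Real.tanh a * Real.tanh y) * (Real.tanh y *
        ((1 - b - nu b y) * (Real.tanh a - Real.tanh y) -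
          (nu b a - nu b y) * (1 - Real.tanh y))) := by
    have e : (sg b a * (sg b y + Real.tanh a * (Real.exp ((1 - b) * y) - sg b y -
      (1 - b - nu b a) * (sg b y * Real.tanh y))) -
      sg b (a - y)) * (Real.tanh a - Real.tanh y) * (1 - Real.tanh y) =
      sg b a * ((sg b y - Real.tanh a * sg b y -
        Real.tanh a * ((1 - b - nu b a) * (sg b y * Real.tanh y))) * (1 - Real.tanh y) +
        Real.tanh a * (Real.exp ((1 - b) * y) * (1 - Real.tanh y))) *
        (Real.tanh a - Real.tanh y) -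
      sg b (a - y) * (Real.tanh a - Real.tanh y) * (1 - Real.tanh y) := by ring
    rw [e, h1, h2]
    ring
  rcases lt_or_gt_of_ne hne with h | h
  · have h3 := tanh_lt h
    have h4 := nu_slope hb0 hb1 hy h
    have h5 : 0 ≤ (sg b a * (sg b y + Real.tanh a * (Real.exp ((1 - b) * y) - sg b y -
      (1 - b - nu b a) * (sg b y * Real.tanh y))) -
      sg b (a - y)) * (Real.tanh a - Real.tanh y) * (1 - Real.tanh y) := by
      rw [key]
      have h7 : 0 ≤ Real.tanh y * ((1 - b - nu b y) * (Real.tanh a - Real.tanh y) -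
          (nu b a - nu b y) * (1 - Real.tanh y)) := mul_nonneg hty.le (by linarith)
      have h8 : 0 ≤ sg b a * sg b y * (Real.tanh a * Real.tanh y) := by positivity
      exact mul_nonneg h8 (by linarith)
    have h9 := nonneg_of_mul_nonneg_left h5 (by linarith : 0 < 1 - Real.tanh y)
    have h10 := nonneg_of_mul_nonneg_left h9 (by linarith : 0 < Real.tanh a - Real.tanh y)
    linarith
  · have h3 := tanh_lt h
    have h4 := nu_slope' hb0 hb1 ha h
    have h5 : (sg b a * (sg b y + Real.tanh a * (Real.exp ((1 - b) * y) - sg b y -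
      (1 - b - nu b a) * (sg b y * Real.tanh y))) -
      sg b (a - y)) * (Real.tanh a - Real.tanh y) * (1 - Real.tanh y) ≤ 0 := by
      rw [key]
      have h7 : Real.tanh y * ((1 - b - nu b y) * (Real.tanh a - Real.tanh y) -
          (nu b a - nu b y) * (1 - Real.tanh y)) ≤ 0 :=
        mul_nonpos_of_nonneg_of_nonpos hty.le (by linarith)
      have h8 : 0 ≤ sg b a * sg b y * (Real.tanh a * Real.tanh y) := by positivity
      exact mul_nonpos_of_nonneg_of_nonpos h8 (by linarith)
    have h9 : 0 ≤ (sg b a * (sg b y + Real.tanh a * (Real.exp ((1 - b) * y) - sg b y -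
      (1 - b - nu b a) * (sg b y * Real.tanh y))) -
      sg b (a - y)) * ((Real.tanh y - Real.tanh a) * (1 - Real.tanh y)) := by nlinarith
    have h10 := nonneg_of_mul_nonneg_left h9
      (mul_pos (by linarith : 0 < Real.tanh y - Real.tanh a) (by linarith : 0 < 1 - Real.tanh y))
    linarith

include hb0 in
theorem cont_sub (a : ℝ) : Continuous fun y => sg b (a - y) :=
  (continuous_sg hb0).comp (continuous_const.sub continuous_id)

include hb0 hb1 in
/-- upper bound of `sg (a - y)` -/
theorem sub_le {a y : ℝ} (ha : 0 < a) (hy : 0 < y) :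
    sg b (a - y) ≤ sg b a * (sg b y + Real.tanh a * (Real.exp ((1 - b) * y) - sg b y -
      (1 - b - nu b a) * (sg b y * Real.tanh y))) := by
  by_cases hne : y = a
  · subst hne
    refine le_of_punctured (f := fun z => sg b (y - z))
      (g := fun z => sg b y * (sg b z + Real.tanh y * (Real.exp ((1 - b) * z) - sg b z -
        (1 - b - nu b y) * (sg b z * Real.tanh z))))
      (cont_sub hb0 y).continuousAt ?_ ?_
    · have h1 := continuous_sg hb0
      have h2 : Continuous fun z : ℝ => Real.exp ((1 - b) * z) := by fun_prop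
      have h3 := continuous_tanh
      exact (continuous_const.mul (h1.add (continuous_const.mul ((h2.sub h1).sub
        (continuous_const.mul (h1.mul h3)))))).continuousAt
    · filter_upwards [self_mem_nhdsWithin, nhdsWithin_le_nhds (lt_mem_nhds hy)] with z hz hz0
      exact sub_le_aux hb0 hb1 ha hz0 hz
  · exact sub_le_aux hb0 hb1 ha hy hne

include hb0 hb1 in
/-- lower bound of `sg (a - y)` -/
theorem sub_ge {a y : ℝ} (ha : 0 < a) (hy : 0 < y) :
    sg b a * sg b y * (1 + Real.tanh a * Real.tanh y * nu b a) ≤ sg b (a - y) := by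
  have hsa := sg_pos hb0 a
  have hta := tanh_pos_of ha
  have key : ∀ z, 0 < z → z ≠ a → sg b a * sg b z * (1 + Real.tanh a * Real.tanh z * nu b a) ≤
      sg b (a - z) := fun z hz hne => by
    have h1 := sg_sub' hb0 ha hz
    have hsz := sg_pos hb0 z
    have htz := tanh_pos_of hz
    have e : (sg b (a - z) - sg b a * sg b z * (1 + Real.tanh a * Real.tanh z * nu b a)) *
      (Real.tanh a - Real.tanh z) = sg b a * sg b z * (Real.tanh a * Real.tanh z ^ 2) *
        (nu b a - nu b z) := by
      rw [sub_mul, h1]; ring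
    rcases lt_or_gt_of_ne hne with h | h
    · have h3 := tanh_lt h
      have h4 := nu_mono hb0 hb1 hz h.le
      have h5 : 0 ≤ (sg b (a - z) - sg b a * sg b z * (1 + Real.tanh a * Real.tanh z * nu b a)) *
        (Real.tanh a - Real.tanh z) := by
        rw [e]
        exact mul_nonneg (by positivity) (by linarith)
      have := nonneg_of_mul_nonneg_left h5 (by linarith)
      linarith
    · have h3 := tanh_lt h
      have h4 := nu_mono hb0 hb1 ha h.le
      have h5 : 0 ≤ (sg b (a - z) - sg b a * sg b z * (1 + Real.tanh a * Real.tanh z * nu b a)) *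
        (Real.tanh z - Real.tanh a) := by
        have : (sg b (a - z) - sg b a * sg b z * (1 + Real.tanh a * Real.tanh z * nu b a)) *
          (Real.tanh z - Real.tanh a) = sg b a * sg b z * (Real.tanh a * Real.tanh z ^ 2) *
          (nu b z - nu b a) := by linear_combination -e
        rw [this]
        exact mul_nonneg (by positivity) (by linarith)
      have := nonneg_of_mul_nonneg_left h5 (by linarith)
      linarith
  by_cases hne : y = a
  · subst hne
    refine le_of_punctured
      (f := fun z => sg b y * sg b z * (1 + Real.tanh y * Real.tanh z * nu b y))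
      (g := fun z => sg b (y - z)) ?_ (cont_sub hb0 y).continuousAt ?_
    · have h1 := continuous_sg hb0
      have h2 := continuous_tanh
      exact ((continuous_const.mul h1).mul (continuous_const.add
        ((continuous_const.mul h2).mul continuous_const))).continuousAt
    · filter_upwards [self_mem_nhdsWithin, nhdsWithin_le_nhds (lt_mem_nhds hy)] with z hz hz0
      exact key z hz0 hz
  · exact key y hy hne

end

end SchV
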