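import Pool.Agent.LibSchV.V3

/-!
# One-variable inequalities
-/

open Set Filter Topology

namespace SchV

open SchK

theorem cosh_sq_mul (y : ℝ) : Real.cosh y ^ 2 * (1 - Real.tanh y ^ 2) = 1 := by
  rw [one_sub_tanh]
  have hc := (Real.cosh_pos y).ne'
  field_simp

theorem sinh_eq_mul (y : ℝ) : Real.sinh y = Real.cosh y * Real.tanh y := by
  have hc := (Real.cosh_pos y).ne'
  rw [Real.tanh_eq_sinh_div_cosh]
  field_simp

/-- `cosh y ≥ 1 + tanh² y / 2` -/
theorem cosh_ge_q (y : ℝ) : 1 + Real.tanh y ^ 2 / 2 ≤ Real.cosh y := by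
  have h1 := cosh_sq_mul y
  have h2 := Real.cosh_pos y
  have h3 := one_sub_sq_pos y
  refine le_of_sq_le_sq ?_ h2.le |> fun h => h
  · have h4 : (1 + Real.tanh y ^ 2 / 2) ^ 2 * (1 - Real.tanh y ^ 2) ≤
      Real.cosh y ^ 2 * (1 - Real.tanh y ^ 2) := by
      rw [h1]
      nlinarith [sq_nonneg (Real.tanh y ^ 2), mul_nonneg (sq_nonneg (Real.tanh y))
        (sq_nonneg (Real.tanh y ^ 2))]
    exact le_of_mul_le_mul_right h4 h3

/-- `3 sinh y ≤ y (2 + cosh y)` -/
theorem sinh_le_aux {y : ℝ} (hy : 0 ≤ y) : 3 * Real.sinh y ≤ y * (2 + Real.cosh y) := by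
  have h1 : ∀ z, 0 ≤ z → 0 ≤ z * Real.cosh z - Real.sinh z := by
    have hd : ∀ z : ℝ, HasDerivAt (fun z => z * Real.cosh z - Real.sinh z) (z * Real.sinh z) z :=
      fun z => by
        have := ((hasDerivAt_id z).mul (Real.hasDerivAt_cosh z)).sub (Real.hasDerivAt_sinh z)
        refine this.congr_deriv ?_
        simp
    have hm : MonotoneOn (fun z => z * Real.cosh z - Real.sinh z) (Ici 0) := by
      refine monotoneOn_of_deriv_nonneg (convex_Ici 0)
        (fun z _ => (hd z).continuousAt.continuousWithinAt)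
        (fun z _ => (hd z).differentiableAt.differentiableWithinAt) (fun z hz => ?_)
      rw [interior_Ici] at hz
      rw [(hd z).deriv]
      exact mul_nonneg (le_of_lt hz) (Real.sinh_pos_iff.2 hz).le
    intro z hz
    have := hm (mem_Ici.2 le_rfl) (mem_Ici.2 hz) hz
    simpa using this
  have h2 : ∀ z, 0 ≤ z → 0 ≤ 2 - 2 * Real.cosh z + z * Real.sinh z := by
    have hd : ∀ z : ℝ, HasDerivAt (fun z => 2 - 2 * Real.cosh z + z * Real.sinh z)
        (z * Real.cosh z - Real.sinh z) z :=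
      fun z => by
        have := (((Real.hasDerivAt_cosh z).const_mul 2).const_sub 2).add
          ((hasDerivAt_id z).mul (Real.hasDerivAt_sinh z))
        refine this.congr_deriv ?_
        simp
        ring
    have hm : MonotoneOn (fun z => 2 - 2 * Real.cosh z + z * Real.sinh z) (Ici 0) := by
      refine monotoneOn_of_deriv_nonneg (convex_Ici 0)
        (fun z _ => (hd z).continuousAt.continuousWithinAt)
        (fun z _ => (hd z).differentiableAt.differentiableWithinAt) (fun z hz => ?_)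
      rw [interior_Ici] at hz
      rw [(hd z).deriv]
      exact h1 z (le_of_lt hz)
    intro z hz
    have := hm (mem_Ici.2 le_rfl) (mem_Ici.2 hz) hz
    simpa using this
  have hd : ∀ z : ℝ, HasDerivAt (fun z => z * (2 + Real.cosh z) - 3 * Real.sinh z)
      (2 - 2 * Real.cosh z + z * Real.sinh z) z :=
    fun z => by
      have := ((hasDerivAt_id z).mul ((Real.hasDerivAt_cosh z).const_add 2)).sub
        ((Real.hasDerivAt_sinh z).const_mul 3)
      refine this.congr_deriv ?_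
      simp
      ring
  have hm : MonotoneOn (fun z => z * (2 + Real.cosh z) - 3 * Real.sinh z) (Ici 0) := by
    refine monotoneOn_of_deriv_nonneg (convex_Ici 0)
      (fun z _ => (hd z).continuousAt.continuousWithinAt)
      (fun z _ => (hd z).differentiableAt.differentiableWithinAt) (fun z hz => ?_)
    rw [interior_Ici] at hz
    rw [(hd z).deriv]
    exact h2 z (le_of_lt hz)
  have := hm (mem_Ici.2 le_rfl) (mem_Ici.2 hy) hy
  simp at this
  linarith

section

variable {b : ℝ} (hb0 : 0 < b) (hb1 : b < 1)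

include hb0 in
/-- `sg y ≥ 3 / (2 + cosh y)` -/
theorem sg_ge {y : ℝ} (hy : 0 < y) : 3 ≤ sg b y * (2 + Real.cosh y) := by
  have hs := Real.sinh_pos_iff.2 hy
  have h1 := sg_mul_sinh hb0 y
  have h2 : y ≤ sg b y * Real.sinh y := by
    rw [h1, le_div_iff₀ hb0]
    have := Real.self_le_sinh_iff.2 (mul_pos hb0 hy).le
    linarith
  have h3 := sinh_le_aux hy.le
  have h4 : 3 * Real.sinh y ≤ sg b y * (2 + Real.cosh y) * Real.sinh y := by
    have := mul_le_mul_of_nonneg_right h2 (show 0 ≤ 2 + Real.cosh y by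
      linarith [Real.cosh_pos y])
    linarith
  exact le_of_mul_le_mul_right h4 hs

include hb0 hb1 in
theorem X_sub_sg {y : ℝ} : sg b y * (Real.tanh y ^ 2 / 2) ≤ Real.cosh y - sg b y := by
  have h1 := cosh_ge_q y
  have h2 := sg_le_one hb0 hb1 y
  have h3 := sg_pos hb0 y
  nlinarith [sq_nonneg (Real.tanh y)]

include hb0 hb1 in
theorem sg_le_cosh (y : ℝ) : sg b y ≤ Real.cosh y :=
  (sg_le_one hb0 hb1 y).trans (Real.one_le_cosh y)

include hb0 hb1 in
theorem nu_sub_le {a : ℝ} (ha : 0 < a) :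
    nu b a - (1 - b ^ 2) / 3 ≤ (1 - b) * (2 - b) / 3 * Real.tanh a ^ 2 := by
  have h1 := nu_F hb0 hb1 ha
  have h2 := F_ge hb0 hb1 ha
  have h3 := F_pos hb0 hb1 ha
  have h4 : (nu b a - (1 - b ^ 2) / 3) * Ff b a =
    (1 - b) * (2 - b) / 3 * Real.tanh a ^ 2 * ((1 + b) * (2 + b)) := by
    rw [sub_mul, h1, Ff]; ring
  have h5 : 0 ≤ (1 - b) * (2 - b) / 3 * Real.tanh a ^ 2 :=
    mul_nonneg (div_nonneg (mul_nonneg (by linarith) (by linarith)) (by norm_num)) (sq_nonneg _)
  have h6 := mul_le_mul_of_nonneg_left h2 h5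
  rw [← h4] at h6
  exact le_of_mul_le_mul_right h6 h3

include hb0 hb1 in
/-- (E1): `e^{γ y} ≤ cosh y + (B/3) sinh y + (γ - B/3) tanh y sg y`, `γ = 1 - b ≤ 3/5` -/
theorem E1 (hb : 2 / 5 ≤ b) {y : ℝ} (hy : 0 < y) :
    Real.exp ((1 - b) * y) ≤ Real.cosh y + (1 - b ^ 2) / 3 * Real.sinh y +
      (1 - b - (1 - b ^ 2) / 3) * (sg b y * Real.tanh y) := by
  have h1 : Real.exp ((1 - b) * y) ≤ b + (1 - b) * Real.exp y := by
    have h := convexOn_exp.2 (mem_univ (0 : ℝ)) (mem_univ y) hb0.le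
      (show 0 ≤ 1 - b by linarith) (by ring)
    simpa using h
  have h2 : Real.exp y = Real.cosh y + Real.sinh y := (Real.cosh_add_sinh y).symm
  have h3 := sg_ge hb0 hy
  have hX := Real.one_le_cosh y
  have hs := Real.sinh_pos_iff.2 hy
  have ht := tanh_pos_of hy
  have hsq := Real.cosh_sq y
  have hst := sinh_eq_mul y
  rw [h2] at h1
  set X := Real.cosh y with hXd
  set s := Real.sinh y with hsd
  set t := Real.tanh y with htd
  set σ := sg b y with hσ
  -- (X + 3) t ≤ (5 / 4) (X + 2)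
  have h4 : (X + 3) * t ≤ 5 / 4 * (X + 2) := by
    have h5 : (X + 3) * s ≤ 5 / 4 * (X + 2) * X := by
      refine le_of_sq_le_sq ?_ (by positivity) |> fun h => h
      have hs2 : s ^ 2 = X ^ 2 - 1 := by linarith
      rw [mul_pow, hs2]
      nlinarith [mul_nonneg (sub_nonneg.2 hX) (sub_nonneg.2 hX), pow_pos (by linarith : 0 < X) 3,
        pow_pos (by linarith : 0 < X) 4]
    have hX0 : 0 < X := by linarith
    rw [hst] at h5
    refine le_of_mul_le_mul_right ?_ hX0
    linarith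
  -- t (X - σ) ≤ (5 / 4) (X - 1)
  have h6 : t * (X - σ) ≤ 5 / 4 * (X - 1) := by
    have h7 : (X - σ) * (2 + X) ≤ (X - 1) * (X + 3) := by nlinarith
    have h8 : t * (X - σ) * (2 + X) ≤ 5 / 4 * (X - 1) * (2 + X) := by
      have := mul_le_mul_of_nonneg_left h7 ht.le
      have h9 := mul_le_mul_of_nonneg_right h4 (sub_nonneg.2 hX)
      nlinarith
    exact le_of_mul_le_mul_right h8 (by linarith)
  -- conclusion
  have h10 : (1 - b) * (2 - b) / 3 * (5 / 4) ≤ b := by nlinarith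
  have h11 : 0 ≤ (1 - b) * (2 - b) / 3 := div_nonneg (mul_nonneg (by linarith) (by linarith))
    (by norm_num)
  have h12 := mul_le_mul_of_nonneg_left h6 h11
  have h13 := mul_le_mul_of_nonneg_right h10 (sub_nonneg.2 hX)
  have e1 : 1 - b - (1 - b ^ 2) / 3 = (1 - b) * (2 - b) / 3 := by ring
  rw [e1]
  have e2 : (1 - b ^ 2) / 3 = 1 - b - (1 - b) * (2 - b) / 3 := by ring
  rw [e2, hst]
  rw [hst] at h1
  nlinarith

include hb0 in
/-- (G∞): `e^{γ y} ≤ 2 sg y + sqrt (cosh 2y - γ sinh 2y)`, `γ = 1 - b ≤ 3/5` -/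
theorem Ginf (hb : 2 / 5 ≤ b) {y : ℝ} (hy : 0 < y) :
    Real.exp ((1 - b) * y) ≤ 2 * sg b y +
      √(Real.cosh (2 * y) - (1 - b) * Real.sinh (2 * y)) := by
  have h0 : Real.exp ((1 - b) * y) ≤ Real.exp (3 / 5 * y) :=
    Real.exp_le_exp.2 (mul_le_mul_of_nonneg_right (by linarith) hy.le)
  have h3 := sg_ge hb0 hy
  set u := Real.exp (y / 5) with hu
  have hu1 : 1 ≤ u := by
    rw [hu, Real.one_le_exp_iff]; positivity
  have e1 : Real.exp (3 / 5 * y) = u ^ 3 := by
    rw [hu, ← Real.exp_nat_mul]; congr 1; push_cast; ring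
  have e2 : Real.exp y = u ^ 5 := by
    rw [hu, ← Real.exp_nat_mul]; congr 1; push_cast; ring
  rw [e1] at h0
  set z := Real.exp y with hz
  have hz1 : 1 ≤ z := by rw [hz, Real.one_le_exp_iff]; exact hy.le
  have h4 : u ^ 3 ≤ 48 / 125 * z + 25 / 32 := by
    rw [e2]
    have : 48 / 125 * u ^ 5 + 25 / 32 - u ^ 3 = (u - 5 / 4) ^ 2 *
      (48 / 125 * u ^ 3 + 24 / 25 * u ^ 2 + 4 / 5 * u + 1 / 2) := by ring
    have h5 : 0 ≤ (u - 5 / 4) ^ 2 *
      (48 / 125 * u ^ 3 + 24 / 25 * u ^ 2 + 4 / 5 * u + 1 / 2) := by positivity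
    linarith
  -- the square root
  have h6 : 11 / 25 * z ≤ √(Real.cosh (2 * y) - (1 - b) * Real.sinh (2 * y)) := by
    refine Real.le_sqrt_of_sq_le ?_
    have hs2 : 0 ≤ Real.sinh (2 * y) := Real.sinh_nonneg_iff.2 (by positivity)
    have h7 : Real.cosh (2 * y) - 3 / 5 * Real.sinh (2 * y) ≤
      Real.cosh (2 * y) - (1 - b) * Real.sinh (2 * y) := by nlinarith
    refine le_trans ?_ h7
    have e3 : Real.cosh (2 * y) = (z ^ 2 + (z⁻¹) ^ 2) / 2 := by
      rw [Real.cosh_eq, hz, ← Real.exp_neg, ← Real.exp_nat_mul, ← Real.exp_nat_mul]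
      congr 2
      push_cast
      ring_nf
    have e4 : Real.sinh (2 * y) = (z ^ 2 - (z⁻¹) ^ 2) / 2 := by
      rw [Real.sinh_eq, hz, ← Real.exp_neg, ← Real.exp_nat_mul, ← Real.exp_nat_mul]
      congr 2
      push_cast
      ring_nf
    rw [e3, e4]
    nlinarith [sq_nonneg z, sq_nonneg z⁻¹]
  -- the function sg
  have h8 : 12 ≤ 2 * sg b y * (z + 5) := by
    have hX : Real.cosh y ≤ (z + 1) / 2 := by
      rw [Real.cosh_eq, ← hz]
      have : Real.exp (-y) ≤ 1 := by
        rw [Real.exp_le_one_iff]; linarith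
      linarith
    have hsp := sg_pos hb0 y
    nlinarith
  have h9 : 25 / 32 ≤ 7 / 125 * z + 2 * sg b y := by
    have hz5 : 0 < z + 5 := by linarith
    refine le_of_mul_le_mul_right ?_ hz5
    nlinarith [sq_nonneg (z - 10)]
  linarith

end

end SchV
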