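import Pool.Agent.LibSchV.V4

/-!
# The kernel inequalities at the end points of the angle
-/

open Set Filter Topology

namespace SchV

open SchK

section

variable {b : ℝ} (hb0 : 0 < b) (hb1 : b < 1)

include hb0 hb1 in
theorem add_le {a y : ℝ} (ha : 0 < a) (hy : 0 < y) : sg b (a + y) ≤ sg b a * sg b y := by
  have h1 := sg_add' hb0 ha hy
  have hta := tanh_pos_of ha
  have hty := tanh_pos_of hy
  have hna := nu_pos hb0 hb1 ha
  have hny := nu_pos hb0 hb1 hy
  have hsa := sg_pos hb0 a
  have hsy := sg_pos hb0 y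
  have h2 : sg b (a + y) * (Real.tanh a + Real.tanh y) ≤
      sg b a * sg b y * (Real.tanh a + Real.tanh y) := by
    rw [h1]
    refine mul_le_mul_of_nonneg_left ?_ (by positivity)
    have : 0 ≤ Real.tanh a * Real.tanh y * (nu b a * Real.tanh a + nu b y * Real.tanh y) := by
      positivity
    linarith
  exact le_of_mul_le_mul_right h2 (by linarith)

include hb0 hb1 in
theorem add_ge {a y : ℝ} (ha : 0 < a) (hy : 0 < y) :
    (1 - Real.tanh a) * (sg b a * sg b y) ≤ sg b (a + y) := by
  have h1 := sg_add' hb0 ha hy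
  have hta := tanh_pos_of ha
  have hty := tanh_pos_of hy
  have hty1 := tanh_lt_one' y
  have hna := nu_le hb0 hb1 ha
  have hny := nu_le hb0 hb1 hy
  have hsa := sg_pos hb0 a
  have hsy := sg_pos hb0 y
  have h2 : (1 - Real.tanh a) * (sg b a * sg b y) * (Real.tanh a + Real.tanh y) ≤
      sg b (a + y) * (Real.tanh a + Real.tanh y) := by
    rw [h1]
    have h3 : Real.tanh y * (nu b a * Real.tanh a + nu b y * Real.tanh y) ≤
        Real.tanh a + Real.tanh y := by
      have h4 : nu b a * Real.tanh a ≤ Real.tanh a := by nlinarith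
      have h5 : nu b y * Real.tanh y ≤ Real.tanh y := by nlinarith
      have h6 : Real.tanh y * (nu b a * Real.tanh a + nu b y * Real.tanh y) ≤
        Real.tanh y * (Real.tanh a + Real.tanh y) := mul_le_mul_of_nonneg_left (by linarith) hty.le
      nlinarith
    have h7 := mul_le_mul_of_nonneg_left h3 hta.le
    have h8 : 0 ≤ sg b a * sg b y := by positivity
    nlinarith [mul_le_mul_of_nonneg_left h7 h8]
  exact le_of_mul_le_mul_right h2 (by linarith)

include hb0 hb1 in
theorem sub_ge' {a y : ℝ} (ha : 0 < a) (hy : 0 < y) : sg b a * sg b y ≤ sg b (a - y) := by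
  have h1 := sub_ge hb0 hb1 ha hy
  have hta := tanh_pos_of ha
  have hty := tanh_pos_of hy
  have hna := nu_pos hb0 hb1 ha
  have hsa := sg_pos hb0 a
  have hsy := sg_pos hb0 y
  have : 0 ≤ sg b a * sg b y * (Real.tanh a * Real.tanh y * nu b a) := by positivity
  nlinarith

include hb0 hb1 in
/-- (U), `r < 0` -/
theorem U_neg (hb : 2 / 5 ≤ b) {a y : ℝ} (ha : 0 < a) (hy : 0 < y) :
    sg b (a - y) ≤ sg b a * (Real.tanh a * Real.cosh y + (1 - Real.tanh a) * sg b y +
      nu b a * Real.tanh a * Real.sinh y) := by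
  have h1 := sub_le hb0 hb1 ha hy
  have h2 := E1 hb0 hb1 hb hy
  have hta := tanh_pos_of ha
  have hty := tanh_pos_of hy
  have hsa := sg_pos hb0 a
  have hnu := nu_ge hb0 hb1 ha
  have hX := sg_le_cosh hb0 hb1 y
  have hs := sinh_eq_mul y
  refine h1.trans (mul_le_mul_of_nonneg_left ?_ hsa.le)
  have h3 : 0 ≤ (nu b a - (1 - b ^ 2) / 3) * (Real.sinh y - sg b y * Real.tanh y) := by
    refine mul_nonneg (by linarith) ?_
    rw [hs]
    nlinarith
  have h4 : Real.exp ((1 - b) * y) - (1 - b - nu b a) * (sg b y * Real.tanh y) ≤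
      Real.cosh y + nu b a * Real.sinh y := by
    nlinarith
  nlinarith [mul_le_mul_of_nonneg_left h4 hta.le]

include hb0 hb1 in
/-- (U), `r > 0` -/
theorem U_pos (hb : 2 / 5 ≤ b) {a y : ℝ} (ha : 0 < a) (hy : 0 < y) :
    sg b (a + y) ≤ sg b a * (Real.tanh a * Real.cosh y + (1 - Real.tanh a) * sg b y -
      nu b a * Real.tanh a * Real.sinh y) := by
  have h1 := sg_add' hb0 ha hy
  have hta := tanh_pos_of ha
  have hty := tanh_pos_of hy
  have hta1 := tanh_lt_one' a
  have hty1 := tanh_lt_one' y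
  have hsa := sg_pos hb0 a
  have hsy := sg_pos hb0 y
  have hnu := nu_le hb0 hb1 ha
  have hnu0 := nu_pos hb0 hb1 ha
  have hX := sg_le_cosh hb0 hb1 y
  have hXq := X_sub_sg hb0 hb1 (y := y)
  have hs := sinh_eq_mul y
  have hnt : nu b a * Real.tanh y ≤ 1 := by nlinarith
  -- the core inequality
  have core : sg b y * Real.tanh y ^ 2 * (nu b a - nu b y) ≤
      (Real.tanh a + Real.tanh y) * (Real.cosh y - sg b y) * (1 - nu b a * Real.tanh y) := by
    rcases le_or_gt a y with h | h
    · have h2 := nu_mono hb0 hb1 ha h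
      have h3 : 0 ≤ (Real.tanh a + Real.tanh y) * (Real.cosh y - sg b y) *
        (1 - nu b a * Real.tanh y) :=
        mul_nonneg (mul_nonneg (by linarith) (by linarith)) (by linarith)
      have h4 : sg b y * Real.tanh y ^ 2 * (nu b a - nu b y) ≤ 0 :=
        mul_nonpos_of_nonneg_of_nonpos (by positivity) (by linarith)
      linarith
    · have h2 := tanh_lt h
      have h3 := nu_sub_le hb0 hb1 ha
      have h4 := nu_ge hb0 hb1 hy
      have h5 : (Real.tanh a + Real.tanh y) * (1 - nu b a * Real.tanh y) * (sg b y *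
        (Real.tanh y ^ 2 / 2)) ≤ (Real.tanh a + Real.tanh y) * (1 - nu b a * Real.tanh y) *
        (Real.cosh y - sg b y) :=
        mul_le_mul_of_nonneg_left hXq (mul_nonneg (by linarith) (by linarith))
      have h6 : nu b a - nu b y ≤
        (Real.tanh a + Real.tanh y) * (1 - nu b a * Real.tanh y) / 2 := by
        have h7 : nu b a - nu b y ≤ (1 - b) * (2 - b) / 3 * Real.tanh a ^ 2 := by linarith
        have h8 : (1 - b) * (2 - b) / 3 * Real.tanh a ^ 2 ≤ 8 / 25 * Real.tanh a := by
          have h9 : (1 - b) * (2 - b) / 3 ≤ 8 / 25 := by nlinarith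
          have h10 : Real.tanh a ^ 2 ≤ Real.tanh a := by nlinarith
          have h11 : 0 ≤ (1 - b) * (2 - b) / 3 :=
            div_nonneg (mul_nonneg (by linarith) (by linarith)) (by norm_num)
          calc (1 - b) * (2 - b) / 3 * Real.tanh a ^ 2
              ≤ (1 - b) * (2 - b) / 3 * Real.tanh a := mul_le_mul_of_nonneg_left h10 h11
            _ ≤ _ := mul_le_mul_of_nonneg_right h9 hta.le
        have h12 : 4 / 5 * Real.tanh a ≤
          (Real.tanh a + Real.tanh y) * (1 - nu b a * Real.tanh y) := by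
          have h13 : nu b a ≤ 3 / 5 := by linarith
          have h14 : nu b a * Real.tanh y ≤ 3 / 5 * Real.tanh y :=
            mul_le_mul_of_nonneg_right h13 hty.le
          have h15 : (Real.tanh a + Real.tanh y) * (1 - 3 / 5 * Real.tanh y) ≤
            (Real.tanh a + Real.tanh y) * (1 - nu b a * Real.tanh y) :=
            mul_le_mul_of_nonneg_left (by linarith) (by linarith)
          nlinarith [mul_pos hta hty, mul_pos hty (sub_pos.2 hta1), mul_pos hty (sub_pos.2 h2)]
        linarith
      have h16 : 0 ≤ sg b y * Real.tanh y ^ 2 := by positivity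
      nlinarith [mul_le_mul_of_nonneg_left h6 h16]
  have h3 : 0 ≤ (sg b a * (Real.tanh a * Real.cosh y + (1 - Real.tanh a) * sg b y -
      nu b a * Real.tanh a * Real.sinh y) - sg b (a + y)) * (Real.tanh a + Real.tanh y) := by
    have e : (sg b a * (Real.tanh a * Real.cosh y + (1 - Real.tanh a) * sg b y -
      nu b a * Real.tanh a * Real.sinh y) - sg b (a + y)) * (Real.tanh a + Real.tanh y) =
      sg b a * Real.tanh a * ((Real.tanh a + Real.tanh y) * (Real.cosh y - sg b y) *
        (1 - nu b a * Real.tanh y) - sg b y * Real.tanh y ^ 2 * (nu b a - nu b y)) := by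
      rw [sub_mul, h1, hs]
      ring
    rw [e]
    exact mul_nonneg (by positivity) (by linarith)
  have := nonneg_of_mul_nonneg_left h3 (by linarith)
  linarith

include hb0 hb1 in
/-- `(1 + t) sg y ≤ t cosh y - n sinh y + ρ(-2y)` -/
theorem A_neg {a y : ℝ} (ha : 0 < a) (hy : 0 < y) :
    (1 + Real.tanh a) * (sg b a * sg b y) ≤ sg b a * (Real.tanh a * Real.cosh y -
      nu b a * Real.tanh a * Real.sinh y) + sg b (a - y) := by
  have h1 := sub_ge hb0 hb1 ha hy
  have hta := tanh_pos_of ha
  have hty := tanh_pos_of hy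
  have hty1 := tanh_lt_one' y
  have hsa := sg_pos hb0 a
  have hnu := nu_le hb0 hb1 ha
  have hnu0 := nu_pos hb0 hb1 ha
  have hX := sg_le_cosh hb0 hb1 y
  have hs := sinh_eq_mul y
  have h2 : 0 ≤ sg b a * Real.tanh a * ((Real.cosh y - sg b y) * (1 - nu b a * Real.tanh y)) :=
    mul_nonneg (by positivity) (mul_nonneg (by linarith) (by nlinarith))
  rw [hs]
  nlinarith

include hb0 hb1 in
/-- `(1 + t) sg y ≤ t cosh y + n sinh y + ρ(2y)` -/
theorem A_pos (hb : 2 / 5 ≤ b) {a y : ℝ} (ha : 0 < a) (hy : 0 < y) :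
    (1 + Real.tanh a) * (sg b a * sg b y) ≤ sg b a * (Real.tanh a * Real.cosh y +
      nu b a * Real.tanh a * Real.sinh y) + sg b (a + y) := by
  have h1 := sg_add' hb0 ha hy
  have hta := tanh_pos_of ha
  have hty := tanh_pos_of hy
  have hty1 := tanh_lt_one' y
  have hsa := sg_pos hb0 a
  have hsy := sg_pos hb0 y
  have hnu := nu_le hb0 hb1 ha
  have hnu0 := nu_pos hb0 hb1 ha
  have hX := sg_le_cosh hb0 hb1 y
  have hXq := X_sub_sg hb0 hb1 (y := y)
  have hs := sinh_eq_mul y
  have core : sg b y * Real.tanh y ^ 2 * (nu b y - nu b a) ≤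
      (Real.tanh a + Real.tanh y) * (Real.cosh y - sg b y) := by
    have h3 := nu_sub_le hb0 hb1 hy
    have h4 := nu_ge hb0 hb1 ha
    have h5 : nu b y - nu b a ≤ 1 / 2 * Real.tanh y := by
      have h9 : (1 - b) * (2 - b) / 3 ≤ 8 / 25 := by nlinarith
      have h10 : Real.tanh y ^ 2 ≤ Real.tanh y := by nlinarith
      have h11 : 0 ≤ (1 - b) * (2 - b) / 3 :=
        div_nonneg (mul_nonneg (by linarith) (by linarith)) (by norm_num)
      have h12 : (1 - b) * (2 - b) / 3 * Real.tanh y ^ 2 ≤ 8 / 25 * Real.tanh y :=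
        (mul_le_mul_of_nonneg_left h10 h11).trans (mul_le_mul_of_nonneg_right h9 hty.le)
      linarith
    have h6 : 0 ≤ sg b y * Real.tanh y ^ 2 := by positivity
    have h7 := mul_le_mul_of_nonneg_left h5 h6
    have h8 : Real.tanh y * (sg b y * (Real.tanh y ^ 2 / 2)) ≤
      (Real.tanh a + Real.tanh y) * (Real.cosh y - sg b y) :=
      mul_le_mul (by linarith) hXq (by positivity) (by linarith)
    nlinarith
  have h3 : 0 ≤ (sg b a * (Real.tanh a * Real.cosh y +
      nu b a * Real.tanh a * Real.sinh y) + sg b (a + y) -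
      (1 + Real.tanh a) * (sg b a * sg b y)) * (Real.tanh a + Real.tanh y) := by
    have e : (sg b a * (Real.tanh a * Real.cosh y +
      nu b a * Real.tanh a * Real.sinh y) + sg b (a + y) -
      (1 + Real.tanh a) * (sg b a * sg b y)) * (Real.tanh a + Real.tanh y) =
      sg b a * Real.tanh a * ((Real.tanh a + Real.tanh y) * (Real.cosh y - sg b y) *
        (nu b a * Real.tanh y) + ((Real.tanh a + Real.tanh y) * (Real.cosh y - sg b y)
         - sg b y * Real.tanh y ^ 2 * (nu b y - nu b a))) := by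
      have e1 : (sg b a * (Real.tanh a * Real.cosh y +
        nu b a * Real.tanh a * Real.sinh y) + sg b (a + y) -
        (1 + Real.tanh a) * (sg b a * sg b y)) * (Real.tanh a + Real.tanh y) =
        (sg b a * (Real.tanh a * Real.cosh y +
        nu b a * Real.tanh a * Real.sinh y) -
        (1 + Real.tanh a) * (sg b a * sg b y)) * (Real.tanh a + Real.tanh y) +
        sg b (a + y) * (Real.tanh a + Real.tanh y) := by ring
      rw [e1, h1, hs]
      ring
    rw [e]
    refine mul_nonneg (by positivity) (add_nonneg ?_ (by linarith))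
    exact mul_nonneg (mul_nonneg (by linarith) (by linarith)) (by positivity)
  have := nonneg_of_mul_nonneg_left h3 (by linarith)
  linarith

include hb0 hb1 in
/-- the lower side at the flat column `V₋`, form (GC0) -/
theorem L_gc (hb : 2 / 5 ≤ b) {a y : ℝ} (ha : 0 < a) (hy : 0 < y) :
    sg b (a - y) ≤ sg b a * ((1 + Real.tanh a) * sg b y + Real.tanh a *
      √(Real.cosh (2 * y) - nu b a * Real.sinh (2 * y))) := by
  have h1 := sub_le hb0 hb1 ha hy
  have h2 := Ginf hb0 hb hy
  have hta := tanh_pos_of ha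
  have hty := tanh_pos_of hy
  have hsa := sg_pos hb0 a
  have hsy := sg_pos hb0 y
  have hnu := nu_le hb0 hb1 ha
  have hs2 : 0 ≤ Real.sinh (2 * y) := Real.sinh_nonneg_iff.2 (by positivity)
  have h3 : √(Real.cosh (2 * y) - (1 - b) * Real.sinh (2 * y)) ≤
      √(Real.cosh (2 * y) - nu b a * Real.sinh (2 * y)) :=
    Real.sqrt_le_sqrt (by nlinarith)
  refine h1.trans (mul_le_mul_of_nonneg_left ?_ hsa.le)
  have h4 : 0 ≤ (1 - b - nu b a) * (sg b y * Real.tanh y) :=
    mul_nonneg (by linarith) (by positivity)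
  have h5 : Real.exp ((1 - b) * y) - sg b y - (1 - b - nu b a) * (sg b y * Real.tanh y) ≤
    sg b y + √(Real.cosh (2 * y) - nu b a * Real.sinh (2 * y)) := by linarith
  nlinarith [mul_le_mul_of_nonneg_left h5 hta.le]

end

end SchV
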