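import Pool.Agent.LibSchV.V5

/-!
# The two flat columns at all angles, and the vertex `V₀`
-/

open Set Filter Topology

namespace SchV

open SchK

/-- the odd part of the kernels of the flat columns -/
noncomputable def Jf (b a C y : ℝ) : ℝ :=
  (1 + C) / 2 * sg b (a + y) - (1 - C) / 2 * sg b (a - y) - C * (sg b a * sg b y)

theorem Jf_neg (b a C y : ℝ) : Jf b a (-C) (-y) = - Jf b a C y := by
  rw [Jf, Jf, sg_neg, sub_neg_eq_add, ← sub_eq_add_neg]
  ring

theorem Jf_eq (b a C y : ℝ) : Jf b a C y = (1 + C) / 2 * (sg b (a + y) - sg b a * sg b y) +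
    (1 - C) / 2 * (sg b a * sg b y - sg b (a - y)) := by
  rw [Jf]; ring

/-- `m₀ = sg a tanh a` -/
noncomputable def m0 (b a : ℝ) : ℝ := sg b a * Real.tanh a

section

variable {b : ℝ} (hb0 : 0 < b) (hb1 : b < 1)

include hb0 in
theorem m0_pos {a : ℝ} (ha : 0 < a) : 0 < m0 b a := mul_pos (sg_pos hb0 a) (tanh_pos_of ha)

include hb0 hb1 in
/-- (A), all real `y` -/
theorem A_all (hb : 2 / 5 ≤ b) {a : ℝ} (ha : 0 < a) (y : ℝ) :
    sg b a * sg b y - sg b (a + y) ≤
      m0 b a * (Real.cosh y - sg b y) + nu b a * m0 b a * Real.sinh y := by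
  rw [m0]
  rcases lt_trichotomy y 0 with h | h | h
  · have h1 := A_neg hb0 hb1 ha (show 0 < -y by linarith)
    rw [sg_neg, Real.cosh_neg, Real.sinh_neg, sub_neg_eq_add] at h1
    linarith
  · subst h
    simp [sg_zero]
  · have h1 := A_pos hb0 hb1 hb ha h
    linarith

include hb0 hb1 in
/-- (U), all real `y` -/
theorem U_all (hb : 2 / 5 ≤ b) {a : ℝ} (ha : 0 < a) (y : ℝ) :
    sg b (a - y) - sg b a * sg b y ≤
      m0 b a * (Real.cosh y - sg b y) + nu b a * m0 b a * Real.sinh y := by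
  rw [m0]
  rcases lt_trichotomy y 0 with h | h | h
  · have h1 := U_pos hb0 hb1 hb ha (show 0 < -y by linarith)
    rw [sg_neg, Real.cosh_neg, Real.sinh_neg, ← sub_eq_add_neg] at h1
    linarith
  · subst h
    simp [sg_zero]
  · have h1 := U_neg hb0 hb1 hb ha h
    linarith

include hb0 hb1 in
/-- upper side at the flat column `V₋`, every angle -/
theorem flat_up (hb : 2 / 5 ≤ b) {a m C : ℝ} (ha : 0 < a) (hm : m0 b a ≤ m) (hC1 : -1 ≤ C)
    (hC2 : C ≤ 1) (y : ℝ) :
    m * sg b y - Jf b a C y ≤ m * Real.cosh y + nu b a * m0 b a * Real.sinh y := by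
  have h1 := A_all hb0 hb1 hb ha y
  have h2 := U_all hb0 hb1 hb ha y
  have hX := sg_le_cosh hb0 hb1 y
  have h3 : m0 b a * (Real.cosh y - sg b y) ≤ m * (Real.cosh y - sg b y) :=
    mul_le_mul_of_nonneg_right hm (by linarith)
  have h4 := mul_le_mul_of_nonneg_left h1 (show 0 ≤ (1 + C) / 2 by linarith)
  have h5 := mul_le_mul_of_nonneg_left h2 (show 0 ≤ (1 - C) / 2 by linarith)
  rw [Jf_eq]
  nlinarith

theorem abs_sinh_le (x : ℝ) : |Real.sinh x| ≤ Real.cosh x := by
  rw [abs_le]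
  constructor
  · have := Real.exp_pos x
    rw [← Real.cosh_add_sinh] at this
    linarith
  · exact (Real.sinh_lt_cosh x).le

include hb0 hb1 in
theorem rad_nonneg {a : ℝ} (ha : 0 < a) (y : ℝ) :
    0 ≤ Real.cosh (2 * y) + nu b a * Real.sinh (2 * y) := by
  have h1 := abs_sinh_le (2 * y)
  have hn := nu_le hb0 hb1 ha
  have hn0 := nu_pos hb0 hb1 ha
  rw [abs_le] at h1
  have hc := Real.cosh_pos (2 * y)
  nlinarith

include hb0 hb1 in
theorem J1_le (hb : 2 / 5 ≤ b) {a : ℝ} (ha : 0 < a) (y : ℝ) :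
    sg b (a + y) - sg b a * sg b y ≤ m0 b a * sg b y +
      √(m0 b a * (m0 b a * Real.cosh (2 * y) + nu b a * m0 b a * Real.sinh (2 * y))) := by
  have hm := m0_pos hb0 ha
  have hsy := sg_pos hb0 y
  have hsa := sg_pos hb0 a
  rcases lt_or_ge y 0 with h | h
  · have h1 := L_gc hb0 hb1 hb ha (show 0 < -y by linarith)
    rw [sg_neg, sub_neg_eq_add, mul_neg, Real.cosh_neg, Real.sinh_neg] at h1
    have e : m0 b a * (m0 b a * Real.cosh (2 * y) + nu b a * m0 b a * Real.sinh (2 * y)) =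
      (m0 b a) ^ 2 * (Real.cosh (2 * y) - nu b a * -Real.sinh (2 * y)) := by ring
    rw [e, Real.sqrt_mul (sq_nonneg _), Real.sqrt_sq hm.le, m0]
    linarith
  · have h1 : sg b (a + y) ≤ sg b a * sg b y := by
      rcases h.eq_or_lt with h | h
      · rw [← h]; simp [sg_zero]
      · exact add_le hb0 hb1 ha h
    have h2 := Real.sqrt_nonneg
      (m0 b a * (m0 b a * Real.cosh (2 * y) + nu b a * m0 b a * Real.sinh (2 * y)))
    nlinarith

include hb0 hb1 in
theorem J2_le {a : ℝ} (ha : 0 < a) (y : ℝ) :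
    sg b a * sg b y - sg b (a - y) ≤ m0 b a * sg b y +
      √(m0 b a * (m0 b a * Real.cosh (2 * y) + nu b a * m0 b a * Real.sinh (2 * y))) := by
  have hm := m0_pos hb0 ha
  have hsy := sg_pos hb0 y
  have h2 := Real.sqrt_nonneg
      (m0 b a * (m0 b a * Real.cosh (2 * y) + nu b a * m0 b a * Real.sinh (2 * y)))
  rcases lt_or_ge y 0 with h | h
  · have h1 := add_ge hb0 hb1 ha (show 0 < -y by linarith)
    rw [sg_neg, ← sub_eq_add_neg] at h1
    rw [m0] at *
    nlinarith
  · have h1 : sg b a * sg b y ≤ sg b (a - y) := by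
      rcases h.eq_or_lt with h | h
      · rw [← h]; simp [sg_zero]
      · exact sub_ge' hb0 hb1 ha h
    nlinarith

include hb0 hb1 in
/-- lower side at the flat column `V₋`, every angle -/
theorem flat_low (hb : 2 / 5 ≤ b) {a m C : ℝ} (ha : 0 < a) (hm : m0 b a ≤ m) (hC1 : -1 ≤ C)
    (hC2 : C ≤ 1) (y : ℝ) :
    Jf b a C y ≤ m * sg b y +
      √(m * (m * Real.cosh (2 * y) + nu b a * m0 b a * Real.sinh (2 * y))) := by
  have h1 := J1_le hb0 hb1 hb ha y
  have h2 := J2_le hb0 hb1 ha y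
  have hm0 := m0_pos hb0 ha
  have hsy := sg_pos hb0 y
  have hr := rad_nonneg hb0 hb1 ha y
  have hc := Real.cosh_pos (2 * y)
  have h3 : √(m0 b a * (m0 b a * Real.cosh (2 * y) + nu b a * m0 b a * Real.sinh (2 * y))) ≤
      √(m * (m * Real.cosh (2 * y) + nu b a * m0 b a * Real.sinh (2 * y))) := by
    refine Real.sqrt_le_sqrt ?_
    have e1 : m0 b a * Real.cosh (2 * y) + nu b a * m0 b a * Real.sinh (2 * y) =
      m0 b a * (Real.cosh (2 * y) + nu b a * Real.sinh (2 * y)) := by ring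
    have h4 : 0 ≤ m0 b a * Real.cosh (2 * y) + nu b a * m0 b a * Real.sinh (2 * y) := by
      rw [e1]; exact mul_nonneg hm0.le hr
    have h5 : m0 b a * Real.cosh (2 * y) ≤ m * Real.cosh (2 * y) :=
      mul_le_mul_of_nonneg_right hm hc.le
    exact mul_le_mul hm (by linarith) h4 (by linarith)
  have h4 : m0 b a * sg b y ≤ m * sg b y := mul_le_mul_of_nonneg_right hm hsy.le
  have h5 := mul_le_mul_of_nonneg_left h1 (show 0 ≤ (1 + C) / 2 by linarith)
  have h6 := mul_le_mul_of_nonneg_left h2 (show 0 ≤ (1 - C) / 2 by linarith)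
  rw [Jf_eq]
  nlinarith

include hb0 hb1 in
/-- **(GC0) at the flat column `V₋`, every angle, both sides** -/
theorem flat_minus (hb : 2 / 5 ≤ b) {a m C : ℝ} (ha : 0 < a) (hm : m0 b a ≤ m) (hC1 : -1 ≤ C)
    (hC2 : C ≤ 1) (y : ℝ) :
    (m * sg b y - Jf b a C y) ^ 2 ≤
      m * (m * Real.cosh (2 * y) + nu b a * m0 b a * Real.sinh (2 * y)) := by
  have h1 := flat_up hb0 hb1 hb ha hm hC1 hC2 y
  have h2 := flat_low hb0 hb1 hb ha hm hC1 hC2 y
  have hm0 := m0_pos hb0 ha
  have hn := nu_le hb0 hb1 ha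
  have hn0 := nu_pos hb0 hb1 ha
  have hr := rad_nonneg hb0 hb1 ha y
  have hrad : 0 ≤ m * (m * Real.cosh (2 * y) + nu b a * m0 b a * Real.sinh (2 * y)) := by
    have hc := Real.cosh_pos (2 * y)
    have e1 : m0 b a * Real.cosh (2 * y) + nu b a * m0 b a * Real.sinh (2 * y) =
      m0 b a * (Real.cosh (2 * y) + nu b a * Real.sinh (2 * y)) := by ring
    have h4 : 0 ≤ m0 b a * Real.cosh (2 * y) + nu b a * m0 b a * Real.sinh (2 * y) := by
      rw [e1]; exact mul_nonneg hm0.le hr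
    have h5 : m0 b a * Real.cosh (2 * y) ≤ m * Real.cosh (2 * y) :=
      mul_le_mul_of_nonneg_right hm hc.le
    exact mul_nonneg (by linarith) (by linarith)
  rcases le_or_gt 0 (m * sg b y - Jf b a C y) with h | h
  · have h3 : (m * sg b y - Jf b a C y) ^ 2 ≤
      (m * Real.cosh y + nu b a * m0 b a * Real.sinh y) ^ 2 := pow_le_pow_left₀ h h1 2
    refine h3.trans ?_
    rw [Real.cosh_two_mul, Real.sinh_two_mul]
    have h4 : (nu b a * m0 b a) ^ 2 ≤ m ^ 2 := by
      refine pow_le_pow_left₀ (by positivity) ?_ 2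
      nlinarith
    nlinarith [mul_nonneg (sub_nonneg.2 h4) (sq_nonneg (Real.sinh y))]
  · have h3 : Jf b a C y - m * sg b y ≤
      √(m * (m * Real.cosh (2 * y) + nu b a * m0 b a * Real.sinh (2 * y))) := by linarith
    have h4 := pow_le_pow_left₀ (by linarith) h3 2
    rw [Real.sq_sqrt hrad] at h4
    nlinarith

include hb0 hb1 in
/-- **(GC0) at the flat column `V₊`, every angle, both sides** -/
theorem flat_plus (hb : 2 / 5 ≤ b) {a m C : ℝ} (ha : 0 < a) (hm : m0 b a ≤ m) (hC1 : -1 ≤ C)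
    (hC2 : C ≤ 1) (y : ℝ) :
    (m * sg b y + Jf b a C y) ^ 2 ≤
      m * (m * Real.cosh (2 * y) - nu b a * m0 b a * Real.sinh (2 * y)) := by
  have h := flat_minus hb0 hb1 hb ha hm (show -1 ≤ -C by linarith) (show -C ≤ 1 by linarith) (-y)
  rw [Jf_neg, sg_neg, mul_neg, Real.cosh_neg, Real.sinh_neg] at h
  have e : m * sg b y - -Jf b a C y = m * sg b y + Jf b a C y := by ring
  rw [e] at h
  linarith

/-! ### The vertex `V₀` -/

/-- the kernel of the vertex `V₀`, multiplied by `cosh a ^ 2` -/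
noncomputable def K0f (b a C y : ℝ) : ℝ :=
  (1 - C ^ 2) * Real.cosh a ^ 2 * sg b y +
    C * sg b a * ((1 + C) / 2 * sg b (a + y) - (1 - C) / 2 * sg b (a - y))

include hb0 hb1 in
theorem sg_le_sg {x y : ℝ} (hx : 0 < x) (h : x ≤ y) : sg b y ≤ sg b x := by
  rcases h.eq_or_lt with h | h
  · rw [h]
  · have h1 := add_le hb0 hb1 hx (show 0 < y - x by linarith)
    rw [show x + (y - x) = y by ring] at h1
    have h2 := sg_le_one hb0 hb1 (y - x)
    have h3 := sg_pos hb0 x
    nlinarith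

include hb0 hb1 in
theorem V0_up (hb : 2 / 5 ≤ b) {a C : ℝ} (ha : 0 < a) (hC0 : 0 ≤ C) (hC1 : C ≤ 1) (y : ℝ) :
    K0f b a C y ≤ ((1 - C ^ 2) * Real.cosh a ^ 2 + C ^ 2 * sg b a ^ 2) * Real.cosh y -
      C * sg b a * (nu b a * m0 b a) * Real.sinh y := by
  have h1 := A_all hb0 hb1 hb ha (-y)
  have h2 := U_all hb0 hb1 hb ha (-y)
  rw [sg_neg, Real.cosh_neg, Real.sinh_neg, ← sub_eq_add_neg] at h1
  rw [sg_neg, Real.cosh_neg, Real.sinh_neg, sub_neg_eq_add] at h2
  have hsa := sg_pos hb0 a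
  have hsa1 := sg_le_one hb0 hb1 a
  have hca := Real.one_le_cosh a
  have hX := sg_le_cosh hb0 hb1 y
  have ht1 := tanh_lt_one' a
  have hm : m0 b a ≤ sg b a := by rw [m0]; nlinarith
  have h3 : m0 b a * (Real.cosh y - sg b y) ≤ sg b a * (Real.cosh y - sg b y) :=
    mul_le_mul_of_nonneg_right hm (by linarith)
  -- sg (a + y) ≤ sg a cosh y - ν m0 sinh y ;  sg (a - y) ≥ 2 sg a sg y - sg a cosh y + ν m0 sinh y
  have h4 : sg b (a + y) ≤ sg b a * Real.cosh y - nu b a * m0 b a * Real.sinh y := by linarith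
  have h5 : 2 * (sg b a * sg b y) - sg b a * Real.cosh y + nu b a * m0 b a * Real.sinh y ≤
      sg b (a - y) := by linarith
  have h6 := mul_le_mul_of_nonneg_left h4 (show 0 ≤ C * sg b a * ((1 + C) / 2) by positivity)
  have h7 := mul_le_mul_of_nonneg_left h5 (show 0 ≤ C * sg b a * ((1 - C) / 2) by
    have : 0 ≤ 1 - C := by linarith
    positivity)
  have h8 : 0 ≤ (1 - C) * ((1 + C) * Real.cosh a ^ 2 - C * sg b a ^ 2) *
      (Real.cosh y - sg b y) := by
    refine mul_nonneg (mul_nonneg (by linarith) ?_) (by linarith)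
    have h9 : sg b a ^ 2 ≤ 1 := by nlinarith
    have h10 : 1 ≤ Real.cosh a ^ 2 := by nlinarith
    nlinarith
  rw [K0f]
  nlinarith

include hb0 hb1 in
theorem V0_low {a C : ℝ} (ha : 0 < a) (hC0 : 0 ≤ C) (hC1 : C ≤ 1) (y : ℝ) :
    0 ≤ K0f b a C y := by
  have hsa := sg_pos hb0 a
  have hsa1 := sg_le_one hb0 hb1 a
  have hca := Real.one_le_cosh a
  have hsy := sg_pos hb0 y
  have hta := tanh_pos_of ha
  have ht1 := tanh_lt_one' a
  have hC' : 0 ≤ 1 - C := by linarith
  rcases lt_trichotomy y 0 with h | h | h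
  · have h1 := sub_ge' hb0 hb1 ha (show 0 < -y by linarith)
    have h2 := add_le hb0 hb1 ha (show 0 < -y by linarith)
    rw [sg_neg, sub_neg_eq_add] at h1
    rw [sg_neg, ← sub_eq_add_neg] at h2
    have hp := sg_pos hb0 (a - y)
    have h3 : 0 ≤ (1 + C) / 2 * sg b (a + y) - (1 - C) / 2 * sg b (a - y) := by nlinarith
    rw [K0f]
    have h4 : 0 ≤ (1 - C ^ 2) * Real.cosh a ^ 2 * sg b y := by
      have : 0 ≤ 1 - C ^ 2 := by nlinarith
      positivity
    have h5 : 0 ≤ C * sg b a * ((1 + C) / 2 * sg b (a + y) - (1 - C) / 2 * sg b (a - y)) := by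
      positivity
    linarith
  · subst h
    rw [K0f, sg_zero, add_zero, sub_zero]
    have h4 : 0 ≤ (1 - C ^ 2) * Real.cosh a ^ 2 * 1 := by
      have : 0 ≤ 1 - C ^ 2 := by nlinarith
      positivity
    have h5 : C * sg b a * ((1 + C) / 2 * sg b a - (1 - C) / 2 * sg b a) =
      C ^ 2 * sg b a ^ 2 := by ring
    rw [h5]
    positivity
  · -- sg a sg (a - y) ≤ 2 cosh a ^ 2 sg y
    have key : sg b a * sg b (a - y) ≤ 2 * Real.cosh a ^ 2 * sg b y := by
      rcases le_or_gt y a with h1 | h1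
      · have h2 := sg_le_sg hb0 hb1 h h1
        have h3 := sg_le_one hb0 hb1 (a - y)
        have h4 : sg b a * sg b (a - y) ≤ sg b y := by
          have := sg_pos hb0 (a - y)
          nlinarith
        have h10 : 1 ≤ Real.cosh a ^ 2 := by nlinarith
        nlinarith
      · have h2 := add_ge hb0 hb1 ha (show 0 < y - a by linarith)
        rw [show a + (y - a) = y by ring] at h2
        rw [show a - y = -(y - a) by ring, sg_neg]
        have h3 := cosh_sq_mul a
        have h4 : Real.cosh a ^ 2 * (1 - Real.tanh a) * (1 + Real.tanh a) = 1 := by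
          linear_combination h3
        have h5 : 0 < Real.cosh a ^ 2 * (1 + Real.tanh a) := by positivity
        have h6 := mul_le_mul_of_nonneg_left h2 h5.le
        have h7 : Real.cosh a ^ 2 * (1 + Real.tanh a) *
          ((1 - Real.tanh a) * (sg b a * sg b (y - a))) = sg b a * sg b (y - a) := by
          calc _ = Real.cosh a ^ 2 * (1 - Real.tanh a) * (1 + Real.tanh a) *
                (sg b a * sg b (y - a)) := by ring
            _ = _ := by rw [h4, one_mul]
        rw [h7] at h6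
        refine h6.trans ?_
        refine mul_le_mul_of_nonneg_right ?_ hsy.le
        nlinarith [sq_nonneg (Real.cosh a)]
    have hp := sg_pos hb0 (a + y)
    have h3 : 0 ≤ C * sg b a * ((1 + C) / 2 * sg b (a + y)) := by positivity
    have h4 : C * ((1 - C) / 2) * (sg b a * sg b (a - y)) ≤
      C * ((1 - C) / 2) * (2 * Real.cosh a ^ 2 * sg b y) :=
      mul_le_mul_of_nonneg_left key (by positivity)
    have h5 : 0 ≤ (1 - C) * (Real.cosh a ^ 2 * sg b y) := by positivity
    rw [K0f]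
    nlinarith

end

end SchV
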